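import Pool.Agent.Q49.TL.Alg

set_option autoImplicit false

/-!
# Project TL: irreducibility over the algebraic closure
-/

namespace Pool.Agent.Q146.TL.Abs

open Polynomial Pool.Agent.Q49.TL

lemma fixed_mem {M Om : Type} [Field M] [Field Om] [Algebra M Om] [Normal M Om] [IsAlgClosed Om]
    (z : Om) (hz : IsSeparable M z) (h : ∀ σ : Om ≃ₐ[M] Om, σ z = z) :
    z ∈ (algebraMap M Om).range := by
  classical
  have hint : IsIntegral M z := hz.isIntegral
  have hroot : (minpoly M z).rootSet Om = {z} := by
    ext u
    rw [mem_rootSet, Set.mem_singleton_iff]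
    constructor
    · rintro ⟨_, hu⟩
      obtain ⟨σ, hσ⟩ := minpoly.exists_algEquiv_of_root' hint.isAlgebraic hu
      rw [← hσ, h]
    · rintro rfl
      exact ⟨minpoly.ne_zero hint, minpoly.aeval M _⟩
  have h1 := card_rootSet_eq_natDegree (K := Om) (p := minpoly M z) hz (IsAlgClosed.splits _)
  have h2 : Fintype.card ((minpoly M z).rootSet Om) = 1 := by
    rw [Fintype.card_eq_one_iff]
    refine ⟨⟨z, by rw [hroot]; rfl⟩, fun u => Subtype.ext ?_⟩
    have h3 : (u : Om) ∈ ({z} : Set Om) := hroot ▸ u.2
    exact h3
  rw [h2] at h1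
  apply minpoly.mem_range_of_degree_eq_one
  rw [degree_eq_natDegree (minpoly.ne_zero hint), ← h1]
  rfl

theorem core (κ k M Om : Type) [Field κ] [PerfectField κ] [Field k] [Algebra κ k] [IsAlgClosed k]
    [Algebra.IsAlgebraic κ k] [Field M] [Algebra κ M] [Field Om] [IsAlgClosed Om] [Algebra M Om]
    [Algebra κ Om] [IsScalarTower κ M Om] [Normal M Om]
    (con : ∀ z : M, IsAlgebraic κ z → z ∈ (algebraMap κ M).range)
    (a : RatFunc κ →+* M)
    (ha : ∀ c : κ, a (algebraMap (Polynomial κ) (RatFunc κ) (C c)) = algebraMap κ M c)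
    (y0 : M) (f : Polynomial (Polynomial κ)) (hf : f.Monic)
    (hy : (f.map (algebraMap (Polynomial κ) (RatFunc κ))).eval₂ a y0 = 0)
    (hmin : ∀ g : Polynomial (Polynomial κ), g.Monic →
      (g.map (algebraMap (Polynomial κ) (RatFunc κ))).eval₂ a y0 = 0 →
      f.natDegree ≤ g.natDegree) :
    Irreducible ((f.map (mapRingHom (algebraMap κ k))).map
      (algebraMap (Polynomial k) (RatFunc k))) := by
  classical
  let τ : k →ₐ[κ] Om := IsAlgClosed.lift
  letI algk : Algebra k Om := τ.toRingHom.toAlgebra
  haveI tow1 : IsScalarTower κ k Om := IsScalarTower.of_algebraMap_eq (fun c => (τ.commutes c).symm)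
  let x : Om := algebraMap M Om (a RatFunc.X)
  let b : RatFunc κ →+* Om := (algebraMap M Om).comp a
  have hb : b.comp (algebraMap (Polynomial κ) (RatFunc κ)) =
      ((aeval x : Polynomial κ →ₐ[κ] Om) : Polynomial κ →+* Om) := by
    apply Polynomial.ringHom_ext
    · intro c
      simp only [RingHom.coe_comp, Function.comp_apply, b]
      rw [ha]
      change _ = aeval x (C c)
      rw [aeval_C, ← IsScalarTower.algebraMap_apply]
    · simp only [RingHom.coe_comp, Function.comp_apply, b]
      rw [RatFunc.algebraMap_X]
      change _ = aeval x X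
      rw [aeval_X]
  have hxκ : Transcendental κ x := by
    rw [transcendental_iff]
    intro p hp
    have h1 := RingHom.congr_fun hb p
    change b _ = aeval x p at h1
    rw [hp] at h1
    exact (map_eq_zero_iff _ (RatFunc.algebraMap_injective κ)).1 ((map_eq_zero b).1 h1)
  have hxk : Transcendental k x := fun h => hxκ (h.restrictScalars κ)
  letI algkX : Algebra (Polynomial k) Om := ((aeval x : Polynomial k →ₐ[k] Om).toRingHom).toAlgebra
  have hinj : Function.Injective (algebraMap (Polynomial k) Om) := transcendental_iff_injective.1 hxk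
  let ρ : RatFunc k →+* Om := IsFractionRing.lift (A := Polynomial k) (K := RatFunc k)
    (g := algebraMap (Polynomial k) Om) hinj
  letI algRk : Algebra (RatFunc k) Om := ρ.toAlgebra
  haveI tow2 : IsScalarTower (Polynomial k) (RatFunc k) Om := IsScalarTower.of_algebraMap_eq
    (fun p => (IsFractionRing.lift_algebraMap hinj p).symm)
  haveI tf : Module.IsTorsionFree (Polynomial k) Om :=
    Module.isTorsionFree_iff_algebraMap_injective.2 hinj
  let y : Om := algebraMap M Om y0
  -- two computations of values
  have hE1 : ∀ g : Polynomial (Polynomial κ),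
      algebraMap M Om ((g.map (algebraMap (Polynomial κ) (RatFunc κ))).eval₂ a y0) =
        g.eval₂ ((aeval x : Polynomial κ →ₐ[κ] Om) : Polynomial κ →+* Om) y := by
    intro g
    rw [hom_eval₂, eval₂_map, hb]
  have hcomp : (algebraMap (Polynomial k) Om).comp (mapRingHom (algebraMap κ k)) =
      ((aeval x : Polynomial κ →ₐ[κ] Om) : Polynomial κ →+* Om) := by
    apply Polynomial.ringHom_ext
    · intro c
      simp only [RingHom.coe_comp, Function.comp_apply, coe_mapRingHom, map_C]
      change aeval x (C (algebraMap κ k c)) = aeval x (C c)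
      rw [aeval_C, aeval_C, ← IsScalarTower.algebraMap_apply]
    · simp only [RingHom.coe_comp, Function.comp_apply, coe_mapRingHom, map_X]
      change aeval x (X : Polynomial k) = aeval x (X : Polynomial κ)
      rw [aeval_X, aeval_X]
  have hE2 : ∀ g : Polynomial (Polynomial κ),
      aeval y (g.map (mapRingHom (algebraMap κ k))) =
        g.eval₂ ((aeval x : Polynomial κ →ₐ[κ] Om) : Polynomial κ →+* Om) y := by
    intro g
    rw [aeval_def, eval₂_map, hcomp]
  have hyk : aeval y (f.map (mapRingHom (algebraMap κ k))) = 0 := by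
    rw [hE2, ← hE1, hy, map_zero]
  have hfk : (f.map (mapRingHom (algebraMap κ k))).Monic := hf.map _
  have hint : IsIntegral (Polynomial k) y := ⟨_, hfk, hyk⟩
  set g := minpoly (Polynomial k) y with hg
  have hgm : g.Monic := minpoly.monic hint
  have hdvd : g ∣ f.map (mapRingHom (algebraMap κ k)) := minpoly.isIntegrallyClosed_dvd hint hyk
  -- automorphisms
  have hfix : ∀ σ : Om ≃ₐ[M] Om, ∀ i j, σ (algebraMap k Om ((g.coeff i).coeff j)) =
      algebraMap k Om ((g.coeff i).coeff j) := by
    intro σ
    have hs0 : ∀ c : k, ∃ c' : k, algebraMap k Om c' = σ (algebraMap k Om c) := by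
      intro c
      have h1 : IsAlgebraic κ (algebraMap k Om c) :=
        (Algebra.IsAlgebraic.isAlgebraic c).algebraMap
      have h2 : IsAlgebraic κ (σ (algebraMap k Om c)) :=
        h1.algHom ((σ : Om →ₐ[M] Om).restrictScalars κ)
      have h3 : IsAlgebraic k (σ (algebraMap k Om c)) := h2.tower_top k
      have h4 : (minpoly k (σ (algebraMap k Om c))).degree = 1 :=
        IsAlgClosed.degree_eq_one_of_irreducible k (minpoly.irreducible h3.isIntegral)
      obtain ⟨c', hc'⟩ := minpoly.mem_range_of_degree_eq_one _ _ h4
      exact ⟨c', hc'⟩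
    choose s0 hs using hs0
    have hkinj : Function.Injective (algebraMap k Om) := (algebraMap k Om).injective
    let s : k →+* k :=
      { toFun := s0
        map_one' := hkinj (by rw [hs, map_one, map_one])
        map_zero' := hkinj (by rw [hs, map_zero, map_zero])
        map_mul' := fun u v => hkinj (by rw [hs, map_mul, map_mul, map_mul, hs, hs])
        map_add' := fun u v => hkinj (by rw [hs, map_add, map_add, map_add, hs, hs]) }
    have hs2 : ∀ c, algebraMap k Om (s c) = σ (algebraMap k Om c) := hs
    have hσx : σ x = x := σ.commutes _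
    have hσy : σ y = y := σ.commutes _
    have hcomp2 : (algebraMap (Polynomial k) Om).comp (mapRingHom s) =
        (σ : Om →+* Om).comp (algebraMap (Polynomial k) Om) := by
      apply Polynomial.ringHom_ext
      · intro c
        simp only [RingHom.coe_comp, Function.comp_apply, coe_mapRingHom, map_C]
        change aeval x (C (s c)) = σ (aeval x (C c))
        rw [aeval_C, aeval_C, hs2]
      · simp only [RingHom.coe_comp, Function.comp_apply, coe_mapRingHom, map_X]
        change aeval x (X : Polynomial k) = σ (aeval x (X : Polynomial k))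
        rw [aeval_X, hσx]
    have h5 : aeval y (g.map (mapRingHom s)) = 0 := by
      rw [aeval_def, eval₂_map, hcomp2]
      have h6 : (σ : Om →+* Om) (eval₂ (algebraMap (Polynomial k) Om) y g) = 0 := by
        have h7 : eval₂ (algebraMap (Polynomial k) Om) y g = 0 := minpoly.aeval (Polynomial k) y
        rw [h7, map_zero]
      rw [hom_eval₂] at h6
      have h8 : (σ : Om →+* Om) y = y := hσy
      rwa [h8] at h6
    have h9 : g ∣ g.map (mapRingHom s) := minpoly.isIntegrallyClosed_dvd hint h5
    have h10 : g.map (mapRingHom s) = g := eq_of_monic_of_dvd_of_natDegree_le hgm (hgm.map _) h9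
      (natDegree_map_le)
    intro i j
    have h11 : s ((g.coeff i).coeff j) = (g.coeff i).coeff j := by
      conv_rhs => rw [← h10]
      rw [coeff_map, coe_mapRingHom, coeff_map]
    rw [← hs2, h11]
  -- coefficients in `κ`
  have hcoef : ∀ i j, (g.coeff i).coeff j ∈ Set.range (algebraMap κ k) := by
    intro i j
    set c := (g.coeff i).coeff j with hc
    have h1 : IsAlgebraic κ (algebraMap k Om c) := (Algebra.IsAlgebraic.isAlgebraic c).algebraMap
    have h2 : IsSeparable κ (algebraMap k Om c) :=
      PerfectField.separable_of_irreducible (minpoly.irreducible h1.isIntegral)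
    have h3 : IsSeparable M (algebraMap k Om c) := IsSeparable.tower_top (L := M) h2
    obtain ⟨m, hm⟩ := fixed_mem (algebraMap k Om c) h3 (fun σ => hfix σ i j)
    have h4 : IsAlgebraic κ m := by
      rw [← hm] at h1
      exact (isAlgebraic_algebraMap_iff (algebraMap M Om).injective).1 h1
    obtain ⟨c0, hc0⟩ := con m h4
    refine ⟨c0, (algebraMap k Om).injective ?_⟩
    rw [← hm, ← hc0, ← IsScalarTower.algebraMap_apply, ← IsScalarTower.algebraMap_apply]
  obtain ⟨g0, hg0⟩ : ∃ g0 : Polynomial (Polynomial κ), g0.map (mapRingHom (algebraMap κ k)) = g := by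
    rw [← mem_lifts, lifts_iff_coeff_lifts]
    intro i
    have h1 : g.coeff i ∈ lifts (algebraMap κ k) := by
      rw [lifts_iff_coeff_lifts]
      exact hcoef i
    obtain ⟨q, hq⟩ := (mem_lifts _).1 h1
    exact ⟨q, hq⟩
  have hinj2 : Function.Injective (mapRingHom (algebraMap κ k)) := by
    rw [coe_mapRingHom]
    exact map_injective _ (algebraMap κ k).injective
  have hg0m : g0.Monic := by
    rw [hinj2.monic_map_iff, hg0]
    exact hgm
  have hg0y : (g0.map (algebraMap (Polynomial κ) (RatFunc κ))).eval₂ a y0 = 0 := by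
    apply (algebraMap M Om).injective
    rw [hE1, ← hE2, hg0, map_zero]
    exact minpoly.aeval (Polynomial k) y
  have hdeg := hmin g0 hg0m hg0y
  have hdeg2 : g0.natDegree = g.natDegree := by
    rw [← hg0, natDegree_map_eq_of_injective hinj2]
  have hfg : f.map (mapRingHom (algebraMap κ k)) = g :=
    eq_of_monic_of_dvd_of_natDegree_le hgm hfk hdvd (by
      rw [natDegree_map_eq_of_injective hinj2, ← hdeg2]
      exact hdeg)
  rw [hfg, hg, ← minpoly.isIntegrallyClosed_eq_field_fractions' (RatFunc k) hint]
  exact minpoly.irreducible hint.tower_top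

theorem abs_irr : S_ABS := by
  intro κ k _ _ _ _ _ _ f hf
  constructor
  · haveI : Fact (Irreducible (f.map (algebraMap (Polynomial κ) (RatFunc κ)))) := ⟨hf.irr⟩
    let M := AdjoinRoot (f.map (algebraMap (Polynomial κ) (RatFunc κ)))
    refine core κ k M (AlgebraicClosure M) hf.con
      (AdjoinRoot.of (f.map (algebraMap (Polynomial κ) (RatFunc κ)))) ?_
      (AdjoinRoot.root _) f hf.monic ?_ ?_
    · intro c
      rfl
    · exact AdjoinRoot.eval₂_root _
    · intro g hg h
      rw [← AdjoinRoot.algebraMap_eq, ← aeval_def, AdjoinRoot.aeval_eq, AdjoinRoot.mk_eq_zero] at h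
      have h1 := natDegree_le_of_dvd h (hg.map _).ne_zero
      rwa [hf.monic.natDegree_map, hg.natDegree_map] at h1
  · have hji : Function.Injective
        ((algebraMap (Polynomial k) (RatFunc k)).comp (mapRingHom (algebraMap κ k))) := by
      rw [RingHom.coe_comp, coe_mapRingHom]
      exact (RatFunc.algebraMap_injective k).comp (map_injective _ (algebraMap κ k).injective)
    let j : RatFunc κ →+* RatFunc k := IsFractionRing.lift (A := Polynomial κ) (K := RatFunc κ)
      (g := (algebraMap (Polynomial k) (RatFunc k)).comp (mapRingHom (algebraMap κ k))) hji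
    have hj : (algebraMap (Polynomial k) (RatFunc k)).comp (mapRingHom (algebraMap κ k)) =
        j.comp (algebraMap (Polynomial κ) (RatFunc κ)) := by
      apply RingHom.ext
      intro p
      exact (IsFractionRing.lift_algebraMap (K := RatFunc κ) hji p).symm
    rw [map_map, hj, ← map_map]
    exact hf.sep.map

end Pool.Agent.Q146.TL.Abs
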