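import Pool.Agent.Q146.TL.CstA

set_option autoImplicit false

/-!
# Project TL: constant extensions of global function fields
-/

namespace Pool.Agent.Q146.TL.Cst

open Pool.Agent.Q49.TL

theorem cst (h1 : S_ALG) (h2 : S_TR) : S_CST := by
  intro φ ℓ _ F _ _ hφ k _ _ _ ι κ _ _ w e f hw he hf hlt
  classical
  letI : Fintype F := Fintype.ofFinite F
  letI algFk : Algebra F k := ((algebraMap (RatFunc F) k).comp (algebraMap F (RatFunc F))).toAlgebra
  haveI : IsScalarTower F (RatFunc F) k := IsScalarTower.of_algebraMap_eq' rfl
  let Om := AlgebraicClosure k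
  let K := kap F Om ℓ
  have hKalg : Algebra.IsAlgebraic F K := isAlgebraic_kap F Om ℓ
  have hT : Tsen φ K := hφ K hKalg (fun g hg hg1 => kap_irr F Om ℓ g hg hg1)
  have hT2 := h2 φ K hT
  -- the transcendental element
  let t : Om := algebraMap (RatFunc F) Om RatFunc.X
  have htF : Transcendental F t := by
    have h3 : Transcendental F (RatFunc.X : RatFunc F) := by
      rw [← RatFunc.algebraMap_X]
      exact (transcendental_algebraMap_iff (RatFunc.algebraMap_injective F)).2
        (Polynomial.transcendental_X F)
    exact (transcendental_algebraMap_iff (algebraMap (RatFunc F) Om).injective).2 h3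
  have htK : Transcendental K t := by
    intro h4
    exact htF (h4.restrictScalars F)
  let ρ : RatFunc K →+* Om := IsFractionRing.lift (A := Polynomial K) (K := RatFunc K)
    (g := (Polynomial.aeval t : Polynomial K →ₐ[K] Om).toRingHom) (transcendental_iff_injective.1 htK)
  have hρ : ∀ p : Polynomial K, ρ (algebraMap (Polynomial K) (RatFunc K) p) = Polynomial.aeval t p :=
    fun p => IsFractionRing.lift_algebraMap _ p
  let E := IntermediateField.adjoin k (K : Set Om)
  have htE : t ∈ E := by
    have h3 : t = algebraMap k Om (algebraMap (RatFunc F) k RatFunc.X) :=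
      IsScalarTower.algebraMap_apply (RatFunc F) k Om _
    rw [h3]
    exact E.algebraMap_mem _
  have hKE : ∀ z : K, (z : Om) ∈ E := fun z => IntermediateField.subset_adjoin k _ z.2
  have hpE : ∀ p : Polynomial K, Polynomial.aeval t p ∈ E := by
    intro p
    rw [Polynomial.aeval_eq_sum_range]
    refine sum_mem fun i _ => ?_
    rw [Algebra.smul_def]
    exact mul_mem (hKE _) (pow_mem htE _)
  have hρE : ∀ x, ρ x ∈ E := by
    intro x
    obtain ⟨a, b, _, rfl⟩ := IsFractionRing.div_surjective (A := Polynomial K) x
    rw [map_div₀, hρ, hρ]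
    exact div_mem (hpE a) (hpE b)
  letI : Algebra (RatFunc K) E := (ρ.codRestrict E hρE).toAlgebra
  have hρ2 : ∀ x : RatFunc K, ((algebraMap (RatFunc K) E x : E) : Om) = ρ x := fun x => rfl
  have halgOm : Algebra.IsAlgebraic (RatFunc F) Om := Algebra.IsAlgebraic.trans (RatFunc F) k Om
  have hinjmap : Function.Injective ((algebraMap (Polynomial K) (RatFunc K)).comp
      (Polynomial.mapRingHom (algebraMap F K))) := by
    rw [RingHom.coe_comp]
    exact (RatFunc.algebraMap_injective K).comp
      (Polynomial.map_injective _ (algebraMap F K).injective)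
  let j : RatFunc F →+* RatFunc K := IsFractionRing.lift (A := Polynomial F) (K := RatFunc F)
    (g := (algebraMap (Polynomial K) (RatFunc K)).comp (Polynomial.mapRingHom (algebraMap F K)))
    hinjmap
  have hj : ∀ p : Polynomial F, j (algebraMap (Polynomial F) (RatFunc F) p) =
      algebraMap (Polynomial K) (RatFunc K) (p.map (algebraMap F K)) :=
    fun p => IsFractionRing.lift_algebraMap _ p
  have hρj : ρ.comp j = algebraMap (RatFunc F) Om := by
    apply IsLocalization.ringHom_ext (nonZeroDivisors (Polynomial F))
    apply Polynomial.ringHom_ext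
    · intro a
      simp only [RingHom.coe_comp, Function.comp_apply]
      rw [hj, hρ, Polynomial.map_C, Polynomial.aeval_C]
      have h5 : algebraMap (Polynomial F) (RatFunc F) (Polynomial.C a) = algebraMap F (RatFunc F) a :=
        rfl
      rw [h5, ← IsScalarTower.algebraMap_apply F (RatFunc F) Om]
      rfl
    · simp only [RingHom.coe_comp, Function.comp_apply]
      rw [hj, hρ, Polynomial.map_X, Polynomial.aeval_X, RatFunc.algebraMap_X]
  have hEalg : Algebra.IsAlgebraic (RatFunc K) E := by
    refine ⟨fun x => ?_⟩
    obtain ⟨p, hp0, hp⟩ := halgOm.isAlgebraic (x : Om)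
    refine ⟨p.map j, (Polynomial.map_ne_zero_iff j.injective).2 hp0, ?_⟩
    apply Subtype.ext
    change algebraMap E Om (Polynomial.aeval x (p.map j)) = 0
    rw [Polynomial.aeval_def, Polynomial.hom_eval₂, Polynomial.eval₂_map]
    have h6 : ((algebraMap E Om).comp (algebraMap (RatFunc K) E)).comp j =
        algebraMap (RatFunc F) Om := by
      rw [← hρj]
      rfl
    rw [h6]
    exact hp
  have hTE : Tsen (fun d => d * φ d) E := h1 _ (RatFunc K) E hT2
  -- the zero
  obtain ⟨x, hx0, hx⟩ := hTE ι κ w e (fun i => MvPolynomial.map (algebraMap k E) (f i)) hw he (by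
    intro i d hd
    apply hf i
    intro h7
    apply hd
    rw [MvPolynomial.coeff_map, h7, map_zero]) hlt
  have hT3 : ∀ i, ∃ T : Finset Om, (T : Set Om) ⊆ (K : Set Om) ∧
      (x i : Om) ∈ IntermediateField.adjoin k (T : Set Om) := fun i =>
    IntermediateField.exists_finset_of_mem_adjoin (x i).2
  choose T hTK hTx using hT3
  obtain ⟨m, hm, hmT⟩ := common F Om ℓ (Finset.univ.biUnion T) (by
    intro z hz
    obtain ⟨i, _, hz⟩ := Finset.mem_biUnion.1 hz
    exact hTK i hz)
  have hm0 := ne_zero_of hm
  have hTL : ∀ i, (x i : Om) ∈ LL F Om k m := by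
    intro i
    have h8 : IntermediateField.adjoin k (T i : Set Om) ≤ LL F Om k m := by
      unfold LL
      apply IntermediateField.adjoin.mono
      rw [rootSet_eq F Om k hm0]
      intro z hz
      exact hmT z (Finset.mem_biUnion.2 ⟨i, Finset.mem_univ i, hz⟩)
    exact h8 (hTx i)
  refine ⟨LL F Om k m, inferInstance, inferInstance, LL_finite F Om k m, LL_finrank F Om k ℓ hm,
    fun i => ⟨x i, hTL i⟩, ?_, fun i => ?_⟩
  · intro h9
    apply hx0
    ext i
    have h10 := congrArg Subtype.val (congrFun h9 i)
    exact h10
  · apply Subtype.ext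
    have h11 := congrArg (algebraMap E Om) (hx i)
    rw [map_zero, MvPolynomial.eval_map] at h11
    have h12 : algebraMap E Om (MvPolynomial.eval₂ (algebraMap k E) x (f i)) =
        MvPolynomial.aeval (fun i => (x i : Om)) (f i) := by
      rw [MvPolynomial.hom_eval₂, MvPolynomial.aeval_def]
      rfl
    rw [h12] at h11
    change algebraMap (LL F Om k m) Om (MvPolynomial.aeval (fun i => (⟨x i, hTL i⟩ : LL F Om k m))
      (f i)) = 0
    rw [MvPolynomial.aeval_def, MvPolynomial.hom_eval₂]
    rw [MvPolynomial.aeval_def] at h11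
    exact h11

end Pool.Agent.Q146.TL.Cst
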