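import Pool.Agent.Q49.TL.Alg

set_option autoImplicit false

/-!
# Project TL: fields fixed by powers of the Frobenius
-/

namespace Pool.Agent.Q146.TL.Cst

open Polynomial Pool.Agent.Q49.TL

section generic

variable (F : Type) [Field F] [Fintype F] (Om : Type) [Field Om] [Algebra F Om]

/-- The power `m` of the Frobenius. -/
noncomputable def fr (m : ℕ) : Om →ₐ[F] Om := (FiniteField.frobeniusAlgHom F Om) ^ m

lemma fr_apply (m : ℕ) (z : Om) : fr F Om m z = z ^ (Fintype.card F ^ m) := by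
  rw [fr, AlgHom.coe_pow, FiniteField.coe_frobeniusAlgHom, pow_iterate]

lemma fr_mul {m : ℕ} {z : Om} (h : fr F Om m z = z) (k : ℕ) : fr F Om (m * k) z = z := by
  rw [fr, pow_mul, AlgHom.coe_pow]
  exact Function.iterate_fixed h k

/-- The field fixed by the power `m` of the Frobenius. -/
noncomputable def fx (m : ℕ) : IntermediateField F Om where
  carrier := {z | fr F Om m z = z}
  mul_mem' := fun {a b} ha hb => by
    simp only [Set.mem_ofPred_eq] at ha hb ⊢
    rw [map_mul, ha, hb]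
  one_mem' := by simp
  add_mem' := fun {a b} ha hb => by
    simp only [Set.mem_ofPred_eq] at ha hb ⊢
    rw [map_add, ha, hb]
  zero_mem' := by simp
  algebraMap_mem' := fun r => by simp
  inv_mem' := fun a ha => by
    simp only [Set.mem_ofPred_eq] at ha ⊢
    rw [map_inv₀, ha]

lemma mem_fx (m : ℕ) (z : Om) : z ∈ fx F Om m ↔ fr F Om m z = z := Iff.rfl

lemma mem_fx' (m : ℕ) (z : Om) : z ∈ fx F Om m ↔ z ^ (Fintype.card F ^ m) = z := by
  rw [mem_fx, fr_apply]

lemma one_lt_cp {m : ℕ} (hm : m ≠ 0) : 1 < Fintype.card F ^ m :=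
  Nat.one_lt_pow hm Fintype.one_lt_card

lemma fx_finite {m : ℕ} (hm : m ≠ 0) : Finite (fx F Om m) := by
  classical
  have hne : (X ^ (Fintype.card F ^ m) - X : Om[X]) ≠ 0 :=
    FiniteField.X_pow_card_sub_X_ne_zero Om (one_lt_cp F hm)
  have h1 : ((fx F Om m : Set Om)) ⊆ (X ^ (Fintype.card F ^ m) - X : Om[X]).roots.toFinset := by
    intro z hz
    have hz' := (mem_fx' F Om m z).1 hz
    rw [Finset.mem_coe, Multiset.mem_toFinset, mem_roots hne]
    simp [IsRoot.def, hz']
  exact (Set.Finite.subset (Finset.finite_toSet _) h1).to_subtype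

lemma finrank_fx {m : ℕ} (hm : m ≠ 0) : Module.finrank F (fx F Om m) ∣ m := by
  have := fx_finite F Om hm
  rw [← FiniteField.orderOf_frobeniusAlgHom F (fx F Om m)]
  apply orderOf_dvd_of_pow_eq_one
  ext z
  rw [AlgHom.coe_pow, FiniteField.coe_frobeniusAlgHom, pow_iterate, AlgHom.one_apply]
  exact (mem_fx' F Om m z.1).1 z.2

/-- The union of the fields fixed by the powers `m` of the Frobenius, `m` not divisible by `ℓ`. -/
noncomputable def kap (ℓ : ℕ) [Fact ℓ.Prime] : IntermediateField F Om where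
  carrier := {z | ∃ m, ¬ ℓ ∣ m ∧ fr F Om m z = z}
  mul_mem' := by
    rintro a b ⟨m, hm, ha⟩ ⟨n, hn, hb⟩
    refine ⟨m * n, fun h => ?_, ?_⟩
    · exact ((Fact.out : ℓ.Prime).dvd_mul.1 h).elim hm hn
    · rw [map_mul, fr_mul F Om ha, mul_comm m n, fr_mul F Om hb]
  one_mem' := ⟨1, (Fact.out : ℓ.Prime).not_dvd_one, by simp⟩
  add_mem' := by
    rintro a b ⟨m, hm, ha⟩ ⟨n, hn, hb⟩
    refine ⟨m * n, fun h => ?_, ?_⟩
    · exact ((Fact.out : ℓ.Prime).dvd_mul.1 h).elim hm hn
    · rw [map_add, fr_mul F Om ha, mul_comm m n, fr_mul F Om hb]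
  zero_mem' := ⟨1, (Fact.out : ℓ.Prime).not_dvd_one, by simp⟩
  algebraMap_mem' := fun r => ⟨1, (Fact.out : ℓ.Prime).not_dvd_one, by simp⟩
  inv_mem' := by
    rintro a ⟨m, hm, ha⟩
    exact ⟨m, hm, by rw [map_inv₀, ha]⟩

lemma mem_kap (ℓ : ℕ) [Fact ℓ.Prime] (z : Om) :
    z ∈ kap F Om ℓ ↔ ∃ m, ¬ ℓ ∣ m ∧ z ∈ fx F Om m := Iff.rfl

lemma common (ℓ : ℕ) [Fact ℓ.Prime] (S : Finset Om) (hS : ∀ z ∈ S, z ∈ kap F Om ℓ) :
    ∃ m, ¬ ℓ ∣ m ∧ ∀ z ∈ S, z ∈ fx F Om m := by
  classical
  induction S using Finset.induction_on with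
  | empty => exact ⟨1, (Fact.out : ℓ.Prime).not_dvd_one, by simp⟩
  | insert a S ha ih =>
    obtain ⟨m, hm, h1⟩ := ih fun z hz => hS z (Finset.mem_insert_of_mem hz)
    obtain ⟨n, hn, h2⟩ := hS a (Finset.mem_insert_self a S)
    refine ⟨m * n, fun h => ((Fact.out : ℓ.Prime).dvd_mul.1 h).elim hm hn, fun z hz => ?_⟩
    rcases Finset.mem_insert.1 hz with rfl | hz
    · rw [mem_fx, mul_comm]
      exact fr_mul F Om h2 m
    · exact fr_mul F Om (h1 z hz) n

lemma ne_zero_of {ℓ m : ℕ} (h : ¬ ℓ ∣ m) : m ≠ 0 := by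
  rintro rfl
  exact h (dvd_zero ℓ)

lemma isAlgebraic_kap (ℓ : ℕ) [Fact ℓ.Prime] : Algebra.IsAlgebraic F (kap F Om ℓ) := by
  refine ⟨fun z => ?_⟩
  obtain ⟨m, hm, hz⟩ := (mem_kap F Om ℓ z.1).1 z.2
  refine ⟨X ^ (Fintype.card F ^ m) - X,
    FiniteField.X_pow_card_sub_X_ne_zero F (one_lt_cp F (ne_zero_of hm)), ?_⟩
  rw [map_sub, map_pow, aeval_X, sub_eq_zero]
  exact Subtype.ext ((mem_fx' F Om m z.1).1 hz)

lemma irr_of_map {K L : Type} [Field K] [Field L] (j : K →+* L) (p : K[X])
    (h : Irreducible (p.map j)) : Irreducible p := by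
  have hu : ∀ a : K[X], IsUnit (a.map j) → IsUnit a := by
    intro a ha
    rw [isUnit_iff_degree_eq_zero, degree_map] at ha
    rwa [isUnit_iff_degree_eq_zero]
  refine ⟨fun hp => h.not_isUnit (hp.map (mapRingHom j)), fun a b hab => ?_⟩
  rw [hab, Polynomial.map_mul] at h
  exact (h.isUnit_or_isUnit rfl).imp (hu a) (hu b)

lemma kap_irr [IsAlgClosed Om] (ℓ : ℕ) [Fact ℓ.Prime] (g : (kap F Om ℓ)[X])
    (hg : Irreducible g) (hg1 : g.natDegree ≠ 1) : ℓ ∣ g.natDegree := by
  classical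
  by_contra hN
  obtain ⟨m, hm, hS⟩ := common F Om ℓ (g.support.image fun i => ((g.coeff i : kap F Om ℓ) : Om)) (by
    intro z hz
    obtain ⟨i, _, rfl⟩ := Finset.mem_image.1 hz
    exact (g.coeff i).2)
  have hle : fx F Om m ≤ kap F Om ℓ := fun z hz => ⟨m, hm, hz⟩
  let j : fx F Om m →ₐ[F] kap F Om ℓ := IntermediateField.inclusion hle
  obtain ⟨g0, hg0⟩ : ∃ g0 : (fx F Om m)[X], g0.map (j : fx F Om m →+* kap F Om ℓ) = g := by
    have h1 : g ∈ Polynomial.lifts (j : fx F Om m →+* kap F Om ℓ) := by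
      rw [Polynomial.lifts_iff_coeff_lifts]
      intro n
      by_cases hn : n ∈ g.support
      · exact ⟨⟨(g.coeff n : Om), hS _ (Finset.mem_image_of_mem _ hn)⟩, Subtype.ext rfl⟩
      · rw [notMem_support_iff.1 hn]
        exact ⟨0, map_zero _⟩
    rw [Polynomial.mem_lifts] at h1
    exact h1
  have hirr : Irreducible g0 := irr_of_map _ g0 (by rw [hg0]; exact hg)
  have hdeg : g0.natDegree = g.natDegree := by rw [← hg0, natDegree_map]
  have hfin := fx_finite F Om (ne_zero_of hm)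
  obtain ⟨α, hα⟩ := IsAlgClosed.exists_aeval_eq_zero Om g0 (by
    have := Irreducible.natDegree_pos hirr
    exact (natDegree_pos_iff_degree_pos.1 this).ne')
  -- the field generated by the root
  have hint : IsIntegral (fx F Om m) α := by
    have h1 : IsAlgebraic (fx F Om m) α := ⟨g0, hirr.ne_zero, hα⟩
    exact h1.isIntegral
  have hmin : (minpoly (fx F Om m) α).natDegree = g.natDegree := by
    rw [← minpoly.eq_of_irreducible hirr hα, natDegree_mul_C, hdeg]
    exact inv_ne_zero (leadingCoeff_ne_zero.2 hirr.ne_zero)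
  let K1 := IntermediateField.adjoin (fx F Om m) {α}
  have hfr : Module.finrank (fx F Om m) K1 = g.natDegree := by
    rw [← hmin]
    exact IntermediateField.adjoin.finrank hint
  have : FiniteDimensional (fx F Om m) K1 := IntermediateField.adjoin.finiteDimensional hint
  have : Finite K1 := Module.finite_of_finite (fx F Om m)
  have := Fintype.ofFinite K1
  have := Fintype.ofFinite (fx F Om m)
  have hc1 : Fintype.card K1 = Fintype.card F ^ (Module.finrank F (fx F Om m) * g.natDegree) := by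
    rw [Module.card_eq_pow_finrank (K := fx F Om m) (V := K1), hfr,
      Module.card_eq_pow_finrank (K := F) (V := fx F Om m), ← pow_mul]
  have hαK : α ∈ K1 := IntermediateField.mem_adjoin_simple_self _ α
  have h2 : (⟨α, hαK⟩ : K1) ^ Fintype.card K1 = ⟨α, hαK⟩ := FiniteField.pow_card _
  have h3 : α ^ Fintype.card K1 = α := congrArg Subtype.val h2
  have hαk : α ∈ kap F Om ℓ := by
    refine ⟨Module.finrank F (fx F Om m) * g.natDegree, fun h => ?_, ?_⟩
    · rcases (Fact.out : ℓ.Prime).dvd_mul.1 h with h | h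
      · exact hm (h.trans (finrank_fx F Om (ne_zero_of hm)))
      · exact hN h
    · rw [fr_apply, ← hc1]
      exact h3
  have hroot : g.IsRoot ⟨α, hαk⟩ := by
    rw [IsRoot.def]
    apply (algebraMap (kap F Om ℓ) Om).injective
    rw [map_zero, ← hg0, eval_map, hom_eval₂]
    rw [aeval_def] at hα
    exact hα
  have h4 := degree_eq_one_of_irreducible_of_root hg hroot
  exact hg1 (natDegree_eq_of_degree_eq_some h4)

end generic

section ext

variable (F : Type) [Field F] [Fintype F] (Om : Type) [Field Om] [Algebra F Om] [IsAlgClosed Om]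
  (k : Type) [Field k] [Algebra F k] [Algebra k Om] [IsScalarTower F k Om]

/-- The extension of `k` generated by the elements fixed by a power of the Frobenius. -/
noncomputable def LL (m : ℕ) : IntermediateField k Om :=
  IntermediateField.adjoin k ((X ^ (Fintype.card F ^ m) - X : k[X]).rootSet Om)

lemma rootSet_eq {m : ℕ} (hm : m ≠ 0) :
    (X ^ (Fintype.card F ^ m) - X : k[X]).rootSet Om = (fx F Om m : Set Om) := by
  ext z
  rw [mem_rootSet]
  constructor
  · rintro ⟨_, h⟩
    rw [map_sub, map_pow, aeval_X, sub_eq_zero] at h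
    exact (mem_fx' F Om m z).2 h
  · intro h
    refine ⟨FiniteField.X_pow_card_sub_X_ne_zero k (one_lt_cp F hm), ?_⟩
    rw [map_sub, map_pow, aeval_X, sub_eq_zero]
    exact (mem_fx' F Om m z).1 h

lemma splitting (m : ℕ) :
    (X ^ (Fintype.card F ^ m) - X : k[X]).IsSplittingField k (LL F Om k m) :=
  IntermediateField.adjoin_rootSet_isSplittingField (IsAlgClosed.splits _)

lemma LL_finite (m : ℕ) : FiniteDimensional k (LL F Om k m) := by
  have := splitting F Om k m
  exact IsSplittingField.finiteDimensional _ (X ^ (Fintype.card F ^ m) - X : k[X])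

lemma LL_galois {m : ℕ} (hm : m ≠ 0) : IsGalois k (LL F Om k m) := by
  have := splitting F Om k m
  obtain ⟨p, hp⟩ := CharP.exists F
  have : CharP k p := charP_of_injective_algebraMap' F p
  refine IsGalois.of_separable_splitting_field (p := (X ^ (Fintype.card F ^ m) - X : k[X])) ?_
  apply galois_poly_separable p
  obtain ⟨n, _, hn⟩ := FiniteField.card F p
  rw [hn]
  exact (dvd_pow_self p n.ne_zero).trans (dvd_pow_self _ hm)

lemma pow_fix {L : Type} [Field L] [Algebra k L] [Algebra F L] [IsScalarTower F k L] {m : ℕ}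
    (hm : m ≠ 0) (σ : L ≃ₐ[k] L) (z : L) (hz : z ∈ fx F L m) : (σ ^ m) z = z := by
  have hσ : ∀ z ∈ fx F L m, σ z ∈ fx F L m := by
    intro z hz
    rw [mem_fx'] at hz ⊢
    rw [← map_pow, hz]
  have hcomm : ∀ r : F, σ (algebraMap F L r) = algebraMap F L r := by
    intro r
    rw [IsScalarTower.algebraMap_apply F k L, σ.commutes]
  let σ0 : fx F L m →ₐ[F] fx F L m :=
    { toFun := fun z => ⟨σ z, hσ z z.2⟩
      map_one' := Subtype.ext (by simp)
      map_mul' := fun a b => Subtype.ext (by simp)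
      map_zero' := Subtype.ext (by simp)
      map_add' := fun a b => Subtype.ext (by simp)
      commutes' := fun r => Subtype.ext (hcomm r) }
  have hfin := fx_finite F L hm
  have hord : (FiniteField.frobeniusAlgHom F (fx F L m)) ^ m = 1 := by
    have h1 := finrank_fx F L hm
    rw [← FiniteField.orderOf_frobeniusAlgHom F (fx F L m)] at h1
    exact orderOf_dvd_iff_pow_eq_one.1 h1
  obtain ⟨n, hn⟩ := (FiniteField.bijective_frobeniusAlgHom_pow F (fx F L m)).2 σ0
  have h2 : σ0 ^ m = 1 := by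
    rw [← hn, ← pow_mul, mul_comm, pow_mul, hord, one_pow]
  have h3 : ∀ j : ℕ, ∀ z : fx F L m, (((σ0 ^ j) z : fx F L m) : L) = (σ ^ j) z := by
    intro j
    induction j with
    | zero => intro z; rfl
    | succ j ih =>
      intro z
      rw [pow_succ, pow_succ, AlgHom.mul_apply, AlgEquiv.mul_apply, ih]
      rfl
  have h4 := h3 m ⟨z, hz⟩
  rw [h2] at h4
  exact h4.symm

lemma LL_finrank (ℓ : ℕ) [Fact ℓ.Prime] {m : ℕ} (hm : ¬ ℓ ∣ m) :
    ¬ ℓ ∣ Module.finrank k (LL F Om k m) := by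
  intro hdvd
  have hm0 := ne_zero_of hm
  have := LL_galois F Om k hm0
  have := LL_finite F Om k m
  rw [← IsGalois.card_aut_eq_finrank] at hdvd
  obtain ⟨σ, hσ⟩ := exists_prime_orderOf_dvd_card' ℓ hdvd
  have h1 : σ ^ m = 1 := by
    ext x
    obtain ⟨x, hx⟩ := x
    change (((σ ^ m) (⟨x, hx⟩ : LL F Om k m) : LL F Om k m) : Om) = x
    have key : ∀ (y : Om) (hy : y ∈ LL F Om k m),
        (((σ ^ m) (⟨y, hy⟩ : LL F Om k m) : LL F Om k m) : Om) = y := by
      intro y hy
      unfold LL at hy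
      induction hy using IntermediateField.adjoin_induction with
      | mem z hz =>
        have hz2 := hz
        rw [rootSet_eq F Om k hm0] at hz2
        have hz3 : (⟨z, IntermediateField.subset_adjoin k _ hz⟩ : LL F Om k m) ∈
            fx F (LL F Om k m) m := by
          rw [mem_fx']
          exact Subtype.ext ((mem_fx' F Om m z).1 hz2)
        exact congrArg Subtype.val (pow_fix F k hm0 σ _ hz3)
      | algebraMap r =>
        exact congrArg Subtype.val ((σ ^ m).commutes r)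
      | add a b ha hb h1 h2 =>
        have h3 := congrArg Subtype.val (map_add (σ ^ m) (⟨a, ha⟩ : LL F Om k m) ⟨b, hb⟩)
        refine h3.trans ?_
        change (((σ ^ m) (⟨a, ha⟩ : LL F Om k m) : LL F Om k m) : Om) +
          (((σ ^ m) (⟨b, hb⟩ : LL F Om k m) : LL F Om k m) : Om) = a + b
        rw [h1, h2]
      | inv a ha h1 =>
        have h3 := congrArg Subtype.val (map_inv₀ (σ ^ m) (⟨a, ha⟩ : LL F Om k m))
        refine h3.trans ?_
        change ((((σ ^ m) (⟨a, ha⟩ : LL F Om k m) : LL F Om k m) : Om))⁻¹ = a⁻¹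
        rw [h1]
      | mul a b ha hb h1 h2 =>
        have h3 := congrArg Subtype.val (map_mul (σ ^ m) (⟨a, ha⟩ : LL F Om k m) ⟨b, hb⟩)
        refine h3.trans ?_
        change (((σ ^ m) (⟨a, ha⟩ : LL F Om k m) : LL F Om k m) : Om) *
          (((σ ^ m) (⟨b, hb⟩ : LL F Om k m) : LL F Om k m) : Om) = a * b
        rw [h1, h2]
    exact key x hx
  have h2 := orderOf_dvd_of_pow_eq_one h1
  rw [hσ] at h2
  exact hm h2

end ext

end Pool.Agent.Q146.TL.Cst
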