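import Pool.Agent.Q49.TL.Alg

set_option autoImplicit false

/-!
# Project TL: finite dimension and the exact sequence of the multiplication by `a`
-/

namespace Pool.Agent.Q146.TL.Hs

open MvPolynomial Pool.Agent.Q49.TL

theorem fd : S_FD := by
  intro κ _ ι _ w hw m
  exact Module.Finite.iff_fg.2 (weightedHomogeneousSubmodule_fg κ w (fun i => (hw i).ne') m)

section

variable {κ : Type} [Field κ] {ι : Type}

lemma comp_mul (w : ι → ℕ) {a : MvPolynomial ι κ} {e : ℕ} (ha : IsWeightedHomogeneous w a e)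
    (x : MvPolynomial ι κ) (m : ℕ) :
    weightedHomogeneousComponent w m (a * x) =
      if e ≤ m then a * weightedHomogeneousComponent w (m - e) x else 0 := by
  classical
  have hx := sum_weightedHomogeneousComponent w x
  rw [finsum_eq_sum _ (weightedHomogeneousComponent_finsupp x)] at hx
  set S := (weightedHomogeneousComponent_finsupp (w := w) x).toFinset with hS
  have hmem : ∀ k, k ∉ S → weightedHomogeneousComponent w k x = 0 := by
    intro k hk
    rw [hS, Set.Finite.mem_toFinset, Function.mem_support, not_not] at hk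
    exact hk
  have h1 : ∀ k, weightedHomogeneousComponent w m (a * weightedHomogeneousComponent w k x) =
      if m = e + k then a * weightedHomogeneousComponent w k x else 0 := by
    intro k
    apply weightedHomogeneousComponent_of_mem
    rw [mem_weightedHomogeneousSubmodule]
    exact ha.mul (weightedHomogeneousComponent_isWeightedHomogeneous k x)
  conv_lhs => rw [← hx, Finset.mul_sum, map_sum]
  rw [Finset.sum_congr rfl (fun k _ => h1 k)]
  split_ifs with hem
  · rw [Finset.sum_eq_single (m - e)]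
    · rw [if_pos (by omega)]
    · intro k _ hk
      rw [if_neg (by omega)]
    · intro hk
      rw [hmem _ hk, mul_zero, ite_self]
  · apply Finset.sum_eq_zero
    intro k _
    rw [if_neg (by omega)]

lemma mem_sup_iff (J J' : Ideal (MvPolynomial ι κ)) (a x : MvPolynomial ι κ) :
    x ∈ J ⊔ Ideal.span {a} * J' ↔ ∃ y ∈ J, ∃ z ∈ J', x = y + a * z := by
  rw [Submodule.mem_sup]
  constructor
  · rintro ⟨y, hy, t, ht, rfl⟩
    obtain ⟨z, hz, rfl⟩ := Ideal.mem_span_singleton_mul.1 ht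
    exact ⟨y, hy, z, hz, rfl⟩
  · rintro ⟨y, hy, z, hz, rfl⟩
    exact ⟨y, hy, a * z, Ideal.mem_span_singleton_mul.2 ⟨z, hz, rfl⟩, rfl⟩

lemma mem_qt_iff (J : Ideal (MvPolynomial ι κ)) (a x : MvPolynomial ι κ) :
    x ∈ qt J a ↔ a * x ∈ J := by
  rw [qt, Submodule.mem_comap, LinearMap.mulLeft_apply]

lemma mem_pc_iff (w : ι → ℕ) (J : Ideal (MvPolynomial ι κ)) (m : ℕ) (x : MvPolynomial ι κ) :
    x ∈ pc w J m ↔ x ∈ J ∧ IsWeightedHomogeneous w x m := by
  rw [pc, Submodule.mem_inf, Submodule.restrictScalars_mem, mem_weightedHomogeneousSubmodule]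

lemma gr_sup (w : ι → ℕ) {J J' : Ideal (MvPolynomial ι κ)} (hJ : Gr w J) (hJ' : Gr w J')
    {a : MvPolynomial ι κ} {e : ℕ} (ha : IsWeightedHomogeneous w a e) :
    Gr w (J ⊔ Ideal.span {a} * J') := by
  intro x hx m
  obtain ⟨y, hy, z, hz, rfl⟩ := (mem_sup_iff J J' a x).1 hx
  rw [map_add, comp_mul w ha]
  apply (mem_sup_iff J J' a _).2
  split_ifs with h
  · exact ⟨_, hJ y hy m, _, hJ' z hz (m - e), rfl⟩
  · exact ⟨_, hJ y hy m, 0, J'.zero_mem, by simp⟩

lemma gr_qt (w : ι → ℕ) {J J' : Ideal (MvPolynomial ι κ)} (hJ : Gr w J) (hJ' : Gr w J')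
    {a : MvPolynomial ι κ} {e : ℕ} (ha : IsWeightedHomogeneous w a e) :
    Gr w (J' ⊓ qt J a) := by
  intro x hx m
  refine ⟨hJ' x hx.1 m, ?_⟩
  have h1 : a * x ∈ J := (mem_qt_iff J a x).1 hx.2
  have h2 := hJ (a * x) h1 (m + e)
  rw [comp_mul w ha, if_pos (Nat.le_add_left e m), Nat.add_sub_cancel] at h2
  exact (mem_qt_iff J a _).2 h2

end

theorem hs_mul : S_HS := by
  intro ℓ κ _ ι _ w hw J J' hJ hJ' hle a e ha
  refine ⟨gr_sup w hJ hJ' ha, gr_qt w hJ hJ' ha, ?_⟩
  by_cases ha0 : a = 0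
  · subst ha0
    have h1 : J ⊔ Ideal.span {(0 : MvPolynomial ι κ)} * J' = J := by simp
    have h2 : J' ⊓ qt J (0 : MvPolynomial ι κ) = J' := by
      apply le_antisymm inf_le_left
      intro x hx
      exact ⟨hx, (mem_qt_iff J 0 x).2 (by simp)⟩
    rw [h1, h2]
  have hfd : ∀ m, FiniteDimensional κ (weightedHomogeneousSubmodule κ w m) := fd κ ι w hw
  have hpc : ∀ (I : Ideal (MvPolynomial ι κ)) m, FiniteDimensional κ (pc w I m) := fun I m =>
    Submodule.finiteDimensional_of_le (inf_le_right : pc w I m ≤ _)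
  have hlow : ∀ m, m < e → pc w (J ⊔ Ideal.span {a} * J') m = pc w J m := by
    intro m hm
    ext x
    rw [mem_pc_iff, mem_pc_iff]
    constructor
    · rintro ⟨h1, h2⟩
      refine ⟨?_, h2⟩
      obtain ⟨y, hy, z, hz, hxyz⟩ := (mem_sup_iff J J' a x).1 h1
      have h3 := congrArg (weightedHomogeneousComponent w m) hxyz
      rw [h2.weightedHomogeneousComponent_same, map_add, comp_mul w ha, if_neg (by omega),
        add_zero] at h3
      rw [h3]
      exact hJ y hy m
    · rintro ⟨h1, h2⟩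
      exact ⟨Ideal.mem_sup_left h1, h2⟩
  have hhigh : ∀ m, Module.finrank κ (pc w (J ⊔ Ideal.span {a} * J') (e + m)) +
      Module.finrank κ (pc w (J' ⊓ qt J a) m) =
      Module.finrank κ (pc w J (e + m)) + Module.finrank κ (pc w J' m) := by
    intro m
    let L : MvPolynomial ι κ →ₗ[κ] MvPolynomial ι κ := LinearMap.mulLeft κ a
    have hL : Function.Injective L := by
      intro x y hxy
      exact mul_left_cancel₀ ha0 hxy
    have e1 : pc w (J ⊔ Ideal.span {a} * J') (e + m) =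
        pc w J (e + m) ⊔ (pc w J' m).map L := by
      ext x
      constructor
      · intro hx
        obtain ⟨h1, h2⟩ := (mem_pc_iff w _ _ _).1 hx
        rw [Submodule.mem_sup]
        obtain ⟨y, hy, z, hz, hxyz⟩ := (mem_sup_iff J J' a x).1 h1
        have h3 := congrArg (weightedHomogeneousComponent w (e + m)) hxyz
        rw [h2.weightedHomogeneousComponent_same, map_add, comp_mul w ha,
          if_pos (Nat.le_add_right e m), Nat.add_sub_cancel_left] at h3
        refine ⟨_, (mem_pc_iff w J _ _).2 ⟨hJ y hy (e + m),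
          weightedHomogeneousComponent_isWeightedHomogeneous _ _⟩, _,
          Submodule.mem_map_of_mem ((mem_pc_iff w J' _ _).2 ⟨hJ' z hz m,
          weightedHomogeneousComponent_isWeightedHomogeneous _ _⟩), h3.symm⟩
      · intro hx
        rw [Submodule.mem_sup] at hx
        obtain ⟨y, hy, t, ht, rfl⟩ := hx
        obtain ⟨z, hz, rfl⟩ := (Submodule.mem_map).1 ht
        obtain ⟨hy1, hy2⟩ := (mem_pc_iff w J _ _).1 hy
        obtain ⟨hz1, hz2⟩ := (mem_pc_iff w J' _ _).1 hz
        exact (mem_pc_iff w _ _ _).2 ⟨(mem_sup_iff J J' a _).2 ⟨y, hy1, z, hz1, rfl⟩, hy2.add (ha.mul hz2)⟩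
    have e2 : pc w J (e + m) ⊓ (pc w J' m).map L = (pc w (J' ⊓ qt J a) m).map L := by
      ext x
      rw [Submodule.mem_inf, Submodule.mem_map, Submodule.mem_map]
      constructor
      · rintro ⟨h1, z, hz, rfl⟩
        obtain ⟨hz1, hz2⟩ := (mem_pc_iff w J' _ _).1 hz
        refine ⟨z, (mem_pc_iff w _ _ _).2 ⟨⟨hz1, (mem_qt_iff J a z).2 ((mem_pc_iff w J _ _).1 h1).1⟩,
          hz2⟩, rfl⟩
      · rintro ⟨z, hz, rfl⟩
        obtain ⟨hz1, hz2⟩ := (mem_pc_iff w _ _ _).1 hz
        exact ⟨(mem_pc_iff w J _ _).2 ⟨(mem_qt_iff J a z).1 hz1.2, ha.mul hz2⟩, z,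
          (mem_pc_iff w J' _ _).2 ⟨hz1.1, hz2⟩, rfl⟩
    have e3 := Submodule.finrank_sup_add_finrank_inf_eq (pc w J (e + m)) ((pc w J' m).map L)
    rw [← e1, e2, ← (Submodule.equivMapOfInjective L hL (pc w (J' ⊓ qt J a) m)).finrank_eq,
      ← (Submodule.equivMapOfInjective L hL (pc w J' m)).finrank_eq] at e3
    exact e3
  ext m
  rw [map_add, map_add, PowerSeries.coeff_X_pow_mul', PowerSeries.coeff_X_pow_mul']
  simp only [hs, PowerSeries.coeff_mk]
  by_cases hm : e ≤ m
  · rw [if_pos hm, if_pos hm]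
    have h1 := hhigh (m - e)
    rw [Nat.add_sub_cancel' hm] at h1
    exact_mod_cast congrArg (Nat.cast : ℕ → ZMod ℓ) h1
  · rw [if_neg hm, if_neg hm, hlow m (by omega)]

end Pool.Agent.Q146.TL.Hs
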