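import Pool.Agent.Q146.TL.Top
import Pool.Agent.Q146.TL.Hs

set_option autoImplicit false

/-!
# Project TL: descent (the complex of Koszul without the complex of Koszul)
-/

namespace Pool.Agent.Q146.TL.Desc

open MvPolynomial Pool.Agent.Q49.TL Pool.Agent.Q146.TL.Top Pool.Agent.Q146.TL.Hs

/-- The power series is a polynomial. -/
def Pol {R : Type} [CommRing R] (s : PowerSeries R) : Prop := ∃ q : Polynomial R, s = q

section

variable {R : Type} [CommRing R]

lemma Pol.add {s t : PowerSeries R} (hs : Pol s) (ht : Pol t) : Pol (s + t) := by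
  obtain ⟨p, rfl⟩ := hs
  obtain ⟨q, rfl⟩ := ht
  exact ⟨p + q, by rw [Polynomial.coe_add]⟩

lemma Pol.sub {s t : PowerSeries R} (hs : Pol s) (ht : Pol t) : Pol (s - t) := by
  obtain ⟨p, rfl⟩ := hs
  obtain ⟨q, rfl⟩ := ht
  exact ⟨p - q, by rw [Polynomial.coe_sub]⟩

lemma Pol.mul {s t : PowerSeries R} (hs : Pol s) (ht : Pol t) : Pol (s * t) := by
  obtain ⟨p, rfl⟩ := hs
  obtain ⟨q, rfl⟩ := ht
  exact ⟨p * q, by rw [Polynomial.coe_mul]⟩

lemma Pol.zero : Pol (0 : PowerSeries R) := ⟨0, by rw [Polynomial.coe_zero]⟩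

lemma Pol.X_pow (e : ℕ) : Pol ((PowerSeries.X : PowerSeries R) ^ e) :=
  ⟨Polynomial.X ^ e, by rw [Polynomial.coe_pow, Polynomial.coe_X]⟩

end

section

variable {κ : Type} [Field κ] {ι : Type}

/-- An element outside of a graded ideal has a component outside of it. -/
lemma exists_comp (w : ι → ℕ) {K : Ideal (MvPolynomial ι κ)} {x : MvPolynomial ι κ} (hx : x ∉ K) :
    ∃ m, weightedHomogeneousComponent w m x ∉ K := by
  by_contra hcon
  push Not at hcon
  apply hx
  have h := sum_weightedHomogeneousComponent w x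
  rw [finsum_eq_sum _ (weightedHomogeneousComponent_finsupp x)] at h
  rw [← h]
  exact K.sum_mem fun m _ => hcon m

end

theorem desc (h : S_HS) : S_DESC := by
  intro ℓ κ _ ι _ w hw κ' _ e f hf hpoly
  classical
  -- step 1
  have step1 : ∀ J J' : Ideal (MvPolynomial ι κ), Gr w J → Gr w J' → J ≤ J' →
      (∀ j, ∀ x ∈ J', f j * x ∈ J) → Pol (hs ℓ w J' - hs ℓ w J) := by
    intro J J' hJ hJ' hle hkill
    let S : Set (Ideal (MvPolynomial ι κ)) :=
      {K | J ≤ K ∧ K ≤ J' ∧ Gr w K ∧ Pol (hs ℓ w K - hs ℓ w J)}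
    have hS : S.Nonempty := ⟨J, le_refl _, hle, hJ, by rw [sub_self]; exact Pol.zero⟩
    obtain ⟨K, hK, hmax⟩ := set_has_maximal_iff_noetherian.2 inferInstance S hS
    obtain ⟨hK1, hK2, hK3, hK4⟩ := hK
    by_cases hKJ : K = J'
    · rw [← hKJ]
      exact hK4
    · exfalso
      obtain ⟨x, hx, hxK⟩ := SetLike.exists_of_lt (lt_of_le_of_ne hK2 hKJ)
      obtain ⟨m, hm⟩ := exists_comp w hxK
      set a := weightedHomogeneousComponent w m x with ha
      have haJ : a ∈ J' := hJ' x hx m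
      have haw : IsWeightedHomogeneous w a m := weightedHomogeneousComponent_isWeightedHomogeneous m x
      obtain ⟨h1, h2, h3⟩ := h ℓ κ ι w hw K ⊤ hK3 (gr_top w) le_top a m haw
      have h4 : Pol (hs ℓ w (⊤ : Ideal (MvPolynomial ι κ)) - hs ℓ w (⊤ ⊓ qt K a)) := by
        obtain ⟨q, hq⟩ := hpoly (⊤ ⊓ qt K a) h2 (fun j => ⟨Submodule.mem_top, by
          apply (mem_qt_iff K a _).2
          rw [mul_comm]
          exact hK1 (hkill j a haJ)⟩)
        exact ⟨q, hq⟩
      apply hmax (K ⊔ Ideal.span {a} * ⊤)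
      · refine ⟨hK1.trans le_sup_left, sup_le hK2 ?_, h1, ?_⟩
        · rw [Ideal.mul_top, Ideal.span_singleton_le_iff_mem]
          exact haJ
        · have h5 : hs ℓ w (K ⊔ Ideal.span {a} * ⊤) - hs ℓ w J =
              PowerSeries.X ^ m * (hs ℓ w (⊤ : Ideal (MvPolynomial ι κ)) - hs ℓ w (⊤ ⊓ qt K a)) +
              (hs ℓ w K - hs ℓ w J) := by
            linear_combination h3
          rw [h5]
          exact ((Pol.X_pow m).mul h4).add hK4
      · refine lt_of_le_of_ne le_sup_left ?_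
        intro heq
        apply hm
        rw [heq, Ideal.mul_top]
        exact Ideal.mem_sup_right (Ideal.mem_span_singleton_self a)
  -- step 2
  have step2 : ∀ T : Finset κ', ∀ J J' : Ideal (MvPolynomial ι κ), Gr w J → Gr w J' → J ≤ J' →
      (∀ j, j ∉ T → ∀ x ∈ J', f j * x ∈ J) →
      Pol ((∏ j ∈ T, (1 - PowerSeries.X ^ e j)) * (hs ℓ w J' - hs ℓ w J)) := by
    intro T
    induction T using Finset.induction_on with
    | empty =>
      intro J J' hJ hJ' hle hkill
      rw [Finset.prod_empty, one_mul]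
      exact step1 J J' hJ hJ' hle (fun j => hkill j (Finset.notMem_empty j))
    | insert j T hj ih =>
      intro J J' hJ hJ' hle hkill
      obtain ⟨h1, h2, h3⟩ := h ℓ κ ι w hw J J' hJ hJ' hle (f j) (e j) (hf j)
      have hA := ih (J ⊔ Ideal.span {f j} * J') J' h1 hJ' (sup_le hle Ideal.mul_le_right) (by
        intro i hi x hx
        by_cases hij : i = j
        · subst hij
          exact Ideal.mem_sup_right (Ideal.mem_span_singleton_mul.2 ⟨x, hx, rfl⟩)
        · exact Ideal.mem_sup_left (hkill i (by simp [hij, hi]) x hx))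
      have hB := ih J (J' ⊓ qt J (f j)) hJ h2 (le_inf hle (fun x hx =>
          (mem_qt_iff J (f j) x).2 (J.mul_mem_left _ hx))) (by
        intro i hi x hx
        by_cases hij : i = j
        · subst hij
          exact (mem_qt_iff J _ x).1 hx.2
        · exact hkill i (by simp [hij, hi]) x hx.1)
      rw [Finset.prod_insert hj]
      have h5 : (1 - PowerSeries.X ^ e j) * (∏ j ∈ T, (1 - PowerSeries.X ^ e j)) *
          (hs ℓ w J' - hs ℓ w J) =
          (∏ j ∈ T, (1 - PowerSeries.X ^ e j)) * (hs ℓ w J' - hs ℓ w (J ⊔ Ideal.span {f j} * J')) -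
          PowerSeries.X ^ e j *
            ((∏ j ∈ T, (1 - PowerSeries.X ^ e j)) * (hs ℓ w (J' ⊓ qt J (f j)) - hs ℓ w J)) := by
        linear_combination (∏ j ∈ T, (1 - (PowerSeries.X : PowerSeries (ZMod ℓ)) ^ e j)) * h3
      rw [h5]
      exact hA.sub ((Pol.X_pow _).mul hB)
  have h6 := step2 Finset.univ ⊥ ⊤ (gr_bot w) (gr_top w) bot_le
    (fun j hj => absurd (Finset.mem_univ j) hj)
  rw [hs_bot, sub_zero] at h6
  exact h6

end Pool.Agent.Q146.TL.Desc
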