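import Pool.Agent.Q146.TL.Top
import Pool.Agent.Q146.TL.Hs

set_option autoImplicit false

/-!
# Project TL: enlarging the field of constants
-/

namespace Pool.Agent.Q146.TL.Fld

open MvPolynomial Pool.Agent.Q49.TL Pool.Agent.Q146.TL.Top Pool.Agent.Q146.TL.Hs

lemma aux {F : Type} [Field F] (c a p q : F) (hp : p ≠ 0) (hq : q ≠ 0) :
    c * (a / p) = c * a * q / (p * q) := by
  field_simp

section

variable {κ : Type} [Field κ] {ι : Type}

lemma gr_span (w : ι → ℕ) {a : MvPolynomial ι κ} {e : ℕ} (ha : IsWeightedHomogeneous w a e) :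
    Gr w (Ideal.span {a}) := by
  have h := gr_sup w (gr_bot (κ := κ) w) (gr_top (κ := κ) w) ha
  rwa [Ideal.mul_top, bot_sup_eq] at h

lemma gr_sup' (w : ι → ℕ) {J J' : Ideal (MvPolynomial ι κ)} (hJ : Gr w J) (hJ' : Gr w J') :
    Gr w (J ⊔ J') := by
  intro x hx m
  obtain ⟨y, hy, z, hz, rfl⟩ := Submodule.mem_sup.1 hx
  rw [map_add]
  exact (J ⊔ J').add_mem (Ideal.mem_sup_left (hJ y hy m)) (Ideal.mem_sup_right (hJ' z hz m))

lemma gr_iSup {α : Type} (w : ι → ℕ) (J : α → Ideal (MvPolynomial ι κ)) (hJ : ∀ i, Gr w (J i)) :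
    Gr w (⨆ i, J i) := by
  intro x hx m
  refine Submodule.iSup_induction (p := J)
    (motive := fun x => weightedHomogeneousComponent w m x ∈ ⨆ i, J i) hx ?_ ?_ ?_
  · intro i x hx
    exact Submodule.mem_iSup_of_mem i (hJ i x hx m)
  · rw [map_zero]
    exact zero_mem _
  · intro x y h1 h2
    rw [map_add]
    exact add_mem h1 h2

lemma finrank_pc_eq {F : Type} [Field F] [Algebra κ F] (w : ι → ℕ)
    {P J : Ideal (MvPolynomial ι κ)} (hPJ : P ≤ J) (ψ : MvPolynomial ι κ →ₐ[κ] F)
    (hψ : ∀ x, ψ x = 0 ↔ x ∈ P) (m : ℕ) [FiniteDimensional κ (pc w J m)] :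
    Module.finrank κ (pc w J m) =
      Module.finrank κ ((pc w J m).map ψ.toLinearMap) + Module.finrank κ (pc w P m) := by
  have h1 := LinearMap.finrank_range_add_finrank_ker (ψ.toLinearMap.domRestrict (pc w J m))
  rw [LinearMap.range_domRestrict] at h1
  rw [← h1]
  congr 1
  have h2 : (LinearMap.ker (ψ.toLinearMap.domRestrict (pc w J m))).map (pc w J m).subtype =
      pc w P m := by
    ext x
    rw [Submodule.mem_map]
    constructor
    · rintro ⟨y, hy, rfl⟩
      rw [LinearMap.mem_ker, LinearMap.domRestrict_apply] at hy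
      exact (mem_pc_iff w P m _).2 ⟨(hψ _).1 hy, ((mem_pc_iff w J m _).1 y.2).2⟩
    · intro hx
      obtain ⟨hx1, hx2⟩ := (mem_pc_iff w P m _).1 hx
      refine ⟨⟨x, (mem_pc_iff w J m _).2 ⟨hPJ hx1, hx2⟩⟩, ?_, rfl⟩
      rw [LinearMap.mem_ker, LinearMap.domRestrict_apply]
      exact (hψ _).2 hx1
  rw [← h2]
  exact (Submodule.equivMapOfInjective _ (pc w J m).injective_subtype _).finrank_eq

/-- A subspace of a field stable by multiplication by an algebraic element has dimension divisible
by the degree of the element. -/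
lemma natDegree_dvd {F : Type} [Field F] [Algebra κ F] (g : Polynomial κ) (hg : Irreducible g)
    (θ : F) (hθ : Polynomial.aeval θ g = 0) (W : Submodule κ F) (hW : ∀ x ∈ W, θ * x ∈ W) :
    g.natDegree ∣ Module.finrank κ W := by
  have hmin := minpoly.eq_of_irreducible hg hθ
  have hint : IsIntegral κ θ := by
    refine ⟨g * Polynomial.C g.leadingCoeff⁻¹, ?_, ?_⟩
    · exact Polynomial.monic_mul_leadingCoeff_inv hg.ne_zero
    · rw [← Polynomial.aeval_def, map_mul, hθ, zero_mul]
  have hdeg : (minpoly κ θ).natDegree = g.natDegree := by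
    rw [← hmin, Polynomial.natDegree_mul_C]
    exact inv_ne_zero (Polynomial.leadingCoeff_ne_zero.2 hg.ne_zero)
  have hst : ∀ c ∈ Algebra.adjoin κ {θ}, ∀ x ∈ W, c * x ∈ W := by
    intro c hc
    induction hc using Algebra.adjoin_induction with
    | mem c hc =>
      rw [Set.mem_singleton_iff] at hc
      subst hc
      exact hW
    | algebraMap r =>
      intro x hx
      rw [← Algebra.smul_def]
      exact W.smul_mem r hx
    | add a b ha hb h1 h2 =>
      intro x hx
      rw [add_mul]
      exact W.add_mem (h1 x hx) (h2 x hx)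
    | mul a b ha hb h1 h2 =>
      intro x hx
      rw [mul_assoc]
      exact h1 _ (h2 x hx)
  let K := IntermediateField.adjoin κ {θ}
  have hK : K.toSubalgebra = Algebra.adjoin κ {θ} :=
    IntermediateField.adjoin_simple_toSubalgebra_of_isAlgebraic hint.isAlgebraic
  let W' : Submodule K F :=
    { carrier := W
      add_mem' := fun ha hb => W.add_mem ha hb
      zero_mem' := W.zero_mem
      smul_mem' := fun c x hx => by
        have hc : (c : F) ∈ Algebra.adjoin κ {θ} := by
          rw [← hK]
          exact c.2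
        exact hst c hc x hx }
  have h1 : Module.finrank κ K * Module.finrank K W' = Module.finrank κ W' :=
    Module.finrank_mul_finrank κ K W'
  have h2 : Module.finrank κ K = g.natDegree := by
    rw [← hdeg]
    exact IntermediateField.adjoin.finrank hint
  have h3 : Module.finrank κ W' = Module.finrank κ W := by
    let eq : W' ≃ₗ[κ] W :=
      { toFun := fun x => ⟨x.1, x.2⟩
        invFun := fun x => ⟨x.1, x.2⟩
        map_add' := fun _ _ => rfl
        map_smul' := fun _ _ => rfl
        left_inv := fun _ => rfl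
        right_inv := fun _ => rfl }
    exact eq.finrank_eq
  rw [← h3, ← h1, h2]
  exact dvd_mul_right _ _

end

theorem fld (h : S_FD) : S_FLD := by
  intro ℓ κ _ ι _ w hw P hP hPg g hg hN hℓ d u v hu hv hvP hsum
  have := hP
  set N := g.natDegree with hNdef
  have hN2 : 2 ≤ N := by
    have h1 : 0 < N := Irreducible.natDegree_pos hg
    omega
  set b : Fin N → MvPolynomial ι κ := fun i => u ^ (i : ℕ) * v ^ (N - 1 - i) with hb
  have hbw : ∀ i, IsWeightedHomogeneous w (b i) ((i : ℕ) * d + (N - 1 - i) * d) := by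
    intro i
    have h1 := hu.pow (i : ℕ)
    have h2 := hv.pow (N - 1 - i)
    rw [smul_eq_mul] at h1 h2
    exact h1.mul h2
  set J : Ideal (MvPolynomial ι κ) := P ⊔ ⨆ i, Ideal.span {b i} with hJ
  have hbJ : ∀ i, b i ∈ J := fun i =>
    Ideal.mem_sup_right (Submodule.mem_iSup_of_mem i (Ideal.mem_span_singleton_self _))
  have hPJ : P ≤ J := le_sup_left
  have hJg : Gr w J := gr_sup' w hPg (gr_iSup w _ fun i => gr_span w (hbw i))
  refine ⟨J, hJg, ?_, ?_⟩
  · refine lt_of_le_of_ne hPJ ?_
    intro heq
    have h1 : b ⟨0, by omega⟩ ∈ P := by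
      rw [heq]
      exact hbJ _
    simp only [hb, pow_zero, one_mul] at h1
    exact hvP (hP.mem_of_pow_mem _ h1)
  · -- stability
    have hlead : g.coeff N ≠ 0 := by
      rw [hNdef, Polynomial.coeff_natDegree]
      exact Polynomial.leadingCoeff_ne_zero.2 hg.ne_zero
    have hstab : J ≤ qt (P ⊔ Ideal.span {v} * J) u := by
      refine sup_le ?_ (iSup_le fun i => ?_)
      · intro x hx
        exact (mem_qt_iff _ _ _).2 (Ideal.mem_sup_left (P.mul_mem_left _ hx))
      · rw [Ideal.span_singleton_le_iff_mem, mem_qt_iff]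
        by_cases hi : (i : ℕ) + 1 < N
        · apply Ideal.mem_sup_right
          refine Ideal.mem_span_singleton_mul.2 ⟨b ⟨i + 1, hi⟩, hbJ _, ?_⟩
          simp only [hb]
          have h1 : N - 1 - (i : ℕ) = (N - 1 - (i + 1)) + 1 := by omega
          rw [h1, pow_succ, pow_succ]
          ring
        · have hiN : (i : ℕ) = N - 1 := by
            have := i.2
            omega
          have h1 : u * b i = u ^ N := by
            simp only [hb]
            rw [hiN, Nat.sub_self, pow_zero, mul_one, ← pow_succ']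
            congr 1
            omega
          rw [h1]
          have h2 : ∑ k ∈ Finset.range (N + 1), C (g.coeff k) * u ^ k * v ^ (N - k) =
              v * (∑ k : Fin N, C (g.coeff k) * b k) + C (g.coeff N) * u ^ N := by
            rw [Finset.sum_range_succ, Nat.sub_self, pow_zero, mul_one, Finset.mul_sum,
              Finset.sum_range]
            congr 1
            apply Finset.sum_congr rfl
            intro k _
            have h3 : N - (k : ℕ) = (N - 1 - k) + 1 := by
              have := k.2
              omega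
            simp only [hb]
            rw [h3, pow_succ]
            ring
          have h4 : u ^ N = C (g.coeff N)⁻¹ *
              (∑ k ∈ Finset.range (N + 1), C (g.coeff k) * u ^ k * v ^ (N - k)) +
              v * (-(C (g.coeff N)⁻¹ * ∑ k : Fin N, C (g.coeff k) * b k)) := by
            rw [h2]
            have h5 : C (g.coeff N)⁻¹ * C (g.coeff N) = (1 : MvPolynomial ι κ) := by
              rw [← C_mul, inv_mul_cancel₀ hlead, C_1]
            linear_combination (-(u ^ N)) * h5
          rw [h4]
          apply (mem_sup_iff P J v _).2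
          refine ⟨_, P.mul_mem_left _ hsum, _, J.neg_mem (J.mul_mem_left _ (J.sum_mem fun k _ =>
            J.mul_mem_left _ (hbJ k))), rfl⟩
    let F := FractionRing (MvPolynomial ι κ ⧸ P)
    let ψ : MvPolynomial ι κ →ₐ[κ] F :=
      (IsScalarTower.toAlgHom κ (MvPolynomial ι κ ⧸ P) F).comp (Ideal.Quotient.mkₐ κ P)
    have hψ : ∀ x, ψ x = 0 ↔ x ∈ P := by
      intro x
      have h1 : ψ x = algebraMap (MvPolynomial ι κ ⧸ P) F (Ideal.Quotient.mk P x) := rfl
      rw [h1, map_eq_zero_iff _ (IsFractionRing.injective (MvPolynomial ι κ ⧸ P) F),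
        Ideal.Quotient.eq_zero_iff_mem]
    have hv0 : ψ v ≠ 0 := fun h1 => hvP ((hψ v).1 h1)
    have hθ : Polynomial.aeval (ψ u / ψ v) g = 0 := by
      have h1 := (hψ _).2 hsum
      rw [map_sum] at h1
      rw [Polynomial.aeval_eq_sum_range]
      have h2 : ∑ i ∈ Finset.range (g.natDegree + 1), g.coeff i • (ψ u / ψ v) ^ i =
          (∑ x ∈ Finset.range (N + 1), ψ (C (g.coeff x) * u ^ x * v ^ (N - x))) / ψ v ^ N := by
        rw [Finset.sum_div]
        apply Finset.sum_congr rfl
        intro k hk
        have hk' : k ≤ N := Nat.lt_succ_iff.1 (Finset.mem_range.1 hk)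
        rw [map_mul, map_mul, map_pow, map_pow, Algebra.smul_def, div_pow]
        have h3 : ψ (C (g.coeff k)) = algebraMap κ F (g.coeff k) := ψ.commutes (g.coeff k)
        rw [h3]
        have h4 : ψ v ^ N = ψ v ^ k * ψ v ^ (N - k) := by
          rw [← pow_add]
          congr 1
          omega
        rw [h4]
        exact aux _ _ _ _ (pow_ne_zero _ hv0) (pow_ne_zero _ hv0)
      rw [h2, h1, zero_div]
    have hfd : ∀ m, FiniteDimensional κ (weightedHomogeneousSubmodule κ w m) := h κ ι w hw
    ext m
    simp only [hs, PowerSeries.coeff_mk]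
    have : FiniteDimensional κ (pc w J m) :=
      Submodule.finiteDimensional_of_le (S₂ := weightedHomogeneousSubmodule κ w m) inf_le_right
    rw [finrank_pc_eq w hPJ ψ hψ m]
    have hdvd : g.natDegree ∣ Module.finrank κ ((pc w J m).map ψ.toLinearMap) := by
      apply natDegree_dvd g hg (ψ u / ψ v) hθ
      intro t ht
      obtain ⟨x, hx, rfl⟩ := (Submodule.mem_map).1 ht
      obtain ⟨hx1, hx2⟩ := (mem_pc_iff w J m x).1 hx
      obtain ⟨y, hy, z, hz, hyz⟩ := (mem_sup_iff P J v _).1 ((mem_qt_iff _ _ _).1 (hstab hx1))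
      have h1 := congrArg (weightedHomogeneousComponent w (d + m)) hyz
      rw [(hu.mul hx2).weightedHomogeneousComponent_same, map_add, comp_mul w hv,
        if_pos (Nat.le_add_right d m), Nat.add_sub_cancel_left] at h1
      refine Submodule.mem_map.2 ⟨weightedHomogeneousComponent w m z, (mem_pc_iff w J m _).2
        ⟨hJg z hz m, weightedHomogeneousComponent_isWeightedHomogeneous m z⟩, ?_⟩
      have h2 := congrArg ψ h1
      rw [map_add, map_mul, map_mul, (hψ _).2 (hPg y hy (d + m)), zero_add] at h2
      change ψ _ = ψ u / ψ v * ψ x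
      rw [div_mul_eq_mul_div, h2, mul_div_cancel_left₀ _ hv0]
    have h6 : ((Module.finrank κ ((pc w J m).map ψ.toLinearMap) : ℕ) : ZMod ℓ) = 0 :=
      (ZMod.natCast_eq_zero_iff _ _).2 (hℓ.trans hdvd)
    rw [Nat.cast_add, h6, zero_add]

end Pool.Agent.Q146.TL.Fld
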