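import Pool.Agent.Q49.TL.Alg

set_option autoImplicit false

/-!
# Project TL: orders of vanishing at one
-/

namespace Pool.Agent.Q146.TL.Ord

open Polynomial Pool.Agent.Q49.TL

variable {ℓ : ℕ} [Fact ℓ.Prime]

lemma one_sub_ne (d : ℕ) (hd : 0 < d) : (1 - (X : (ZMod ℓ)[X]) ^ d) ≠ 0 := by
  intro h
  have h1 : (X : (ZMod ℓ)[X]) ^ d = 1 := (sub_eq_zero.1 h).symm
  have h2 := congrArg natDegree h1
  simp only [natDegree_X_pow, natDegree_one] at h2
  omega

lemma rm_coprime (m : ℕ) (hm : ¬ ℓ ∣ m) :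
    rootMultiplicity 1 (1 - (X : (ZMod ℓ)[X]) ^ m) = 1 := by
  have hm0 : 0 < m := Nat.pos_of_ne_zero (fun h => hm (h ▸ dvd_zero ℓ))
  have hne := one_sub_ne (ℓ := ℓ) m hm0
  have hroot : IsRoot (1 - (X : (ZMod ℓ)[X]) ^ m) 1 := by simp [IsRoot.def]
  refine le_antisymm ?_ ?_
  · by_contra hcon
    push Not at hcon
    have h2 := (one_lt_rootMultiplicity_iff_isRoot hne).1 hcon
    have h3 := h2.2
    simp only [IsRoot.def, derivative_sub, derivative_one, derivative_X_pow, zero_sub] at h3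
    rw [eval_neg, eval_mul, eval_pow, eval_X, one_pow, mul_one, neg_eq_zero, eval_C] at h3
    exact hm ((ZMod.natCast_eq_zero_iff m ℓ).1 h3)
  · exact (rootMultiplicity_pos hne).2 hroot

lemma rm (d : ℕ) (hd : 0 < d) :
    rootMultiplicity 1 (1 - (X : (ZMod ℓ)[X]) ^ d) = ℓ ^ d.factorization ℓ := by
  have hp : ℓ.Prime := Fact.out
  have h1 : ℓ ^ d.factorization ℓ * (d / ℓ ^ d.factorization ℓ) = d := Nat.ordProj_mul_ordCompl_eq_self d ℓ
  have h2 : ¬ ℓ ∣ d / ℓ ^ d.factorization ℓ := Nat.not_dvd_ordCompl hp hd.ne'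
  set m := d / ℓ ^ d.factorization ℓ with hm
  have hm0 : 0 < m := Nat.pos_of_ne_zero (fun h => h2 (h ▸ dvd_zero ℓ))
  have h3 : (1 - (X : (ZMod ℓ)[X]) ^ d) = (1 - (X : (ZMod ℓ)[X]) ^ m) ^ (ℓ ^ d.factorization ℓ) := by
    rw [sub_pow_char_pow, one_pow, ← pow_mul, mul_comm, h1]
  rw [h3, ← count_roots, roots_pow, Multiset.count_nsmul, count_roots, rm_coprime m h2, mul_one]

lemma rm_prod {α : Type} [DecidableEq α] (s : Finset α) (g : α → ℕ) (hg : ∀ i ∈ s, 0 < g i) :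
    rootMultiplicity 1 (∏ i ∈ s, (1 - (X : (ZMod ℓ)[X]) ^ g i)) =
      ∑ i ∈ s, ℓ ^ (g i).factorization ℓ := by
  induction s using Finset.induction_on with
  | empty => simp
  | insert a s ha ih =>
    rw [Finset.prod_insert ha, Finset.sum_insert ha, rootMultiplicity_mul, rm _ (hg a (Finset.mem_insert_self a s)),
      ih (fun i hi => hg i (Finset.mem_insert_of_mem hi))]
    exact mul_ne_zero (one_sub_ne _ (hg a (Finset.mem_insert_self a s)))
      (Finset.prod_ne_zero_iff.2 fun i hi => one_sub_ne _ (hg i (Finset.mem_insert_of_mem hi)))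

theorem ord : S_ORD := by
  intro ℓ _ ι κ _ _ w e hw he q hq
  classical
  have h1 := rm_prod (ℓ := ℓ) Finset.univ w (fun i _ => hw i)
  have h2 := rm_prod (ℓ := ℓ) Finset.univ e (fun i _ => he i)
  have hne : (∏ j, (1 - (Polynomial.X : Polynomial (ZMod ℓ)) ^ e j)) ≠ 0 :=
    Finset.prod_ne_zero_iff.2 fun i _ => one_sub_ne _ (he i)
  rw [← h1, ← h2, hq]
  rw [hq] at hne
  rw [rootMultiplicity_mul hne]
  exact Nat.le_add_left _ _

end Pool.Agent.Q146.TL.Ord
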