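import Pool.Agent.Q49.TL.Alg

set_option autoImplicit false

/-!
# Project TL: the Hilbert series of the polynomial ring
-/

namespace Pool.Agent.Q146.TL.Top

open MvPolynomial Pool.Agent.Q49.TL

section

variable {κ : Type} [Field κ] {ι : Type}

lemma gr_bot (w : ι → ℕ) : Gr w (⊥ : Ideal (MvPolynomial ι κ)) := by
  intro f hf m
  rw [Ideal.mem_bot] at hf
  subst hf
  simp

lemma gr_top (w : ι → ℕ) : Gr w (⊤ : Ideal (MvPolynomial ι κ)) := by
  intro f _ m
  exact Submodule.mem_top

lemma hs_bot (ℓ : ℕ) (w : ι → ℕ) : hs ℓ w (⊥ : Ideal (MvPolynomial ι κ)) = 0 := by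
  ext m
  rw [hs, PowerSeries.coeff_mk]
  have h : pc w (⊥ : Ideal (MvPolynomial ι κ)) m = ⊥ := by
    rw [eq_bot_iff]
    intro x hx
    have := hx.1
    simpa using this
  rw [h, finrank_bot]
  simp

/-- The ideal generated by the variables in `T`. -/
noncomputable def M (κ : Type) [Field κ] {ι : Type} (T : Finset ι) : Ideal (MvPolynomial ι κ) :=
  Ideal.span (X '' (T : Set ι))

lemma M_empty : M κ (∅ : Finset ι) = ⊥ := by simp [M]

lemma M_insert [DecidableEq ι] (T : Finset ι) (i : ι) :
    M κ (insert i T) = M κ T ⊔ Ideal.span {(X i : MvPolynomial ι κ)} * ⊤ := by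
  rw [M, M, Finset.coe_insert, Set.image_insert_eq, Ideal.span_insert, Ideal.mul_top, sup_comm]

lemma qt_M (T : Finset ι) (i : ι) (hi : i ∉ T) : ⊤ ⊓ qt (M κ T) (X i) = M κ T := by
  classical
  rw [top_inf_eq]
  ext f
  rw [qt, Submodule.mem_comap, LinearMap.mulLeft_apply, M, mem_ideal_span_X_image,
    mem_ideal_span_X_image, support_X_mul]
  constructor
  · intro h m hm
    obtain ⟨j, hj, hj2⟩ := h (addLeftEmbedding (Finsupp.single i 1) m) (Finset.mem_map_of_mem _ hm)
    refine ⟨j, hj, ?_⟩
    have hij : i ≠ j := by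
      rintro rfl
      exact hi hj
    simpa [addLeftEmbedding, Finsupp.single_apply, hij] using hj2
  · intro h m hm
    obtain ⟨m', hm', rfl⟩ := Finset.mem_map.1 hm
    obtain ⟨j, hj, hj2⟩ := h m' hm'
    refine ⟨j, hj, ?_⟩
    simp only [addLeftEmbedding_apply, Finsupp.add_apply]
    omega

lemma pc_top_zero (w : ι → ℕ) (hw : ∀ i, 0 < w i) :
    pc w (⊤ : Ideal (MvPolynomial ι κ)) 0 = Submodule.span κ {(1 : MvPolynomial ι κ)} := by
  classical
  ext f
  rw [pc, Submodule.restrictScalars_top, top_inf_eq, mem_weightedHomogeneousSubmodule,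
    Submodule.mem_span_singleton]
  constructor
  · intro hf
    refine ⟨coeff 0 f, ?_⟩
    ext m
    rw [coeff_smul, coeff_one, smul_eq_mul]
    by_cases hm : 0 = m
    · simp [← hm]
    · rw [if_neg hm, mul_zero]
      symm
      by_contra hc
      have h1 := hf hc
      apply hm
      ext i
      by_contra h2
      have h3 : w i ≤ Finsupp.weight w m := Finsupp.le_weight_of_ne_zero' w (by
        intro h4; exact h2 (by rw [h4]; rfl))
      have := hw i
      omega
  · rintro ⟨a, rfl⟩
    rw [smul_eq_C_mul, mul_one]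
    exact isWeightedHomogeneous_C w a

lemma hs_univ (ℓ : ℕ) [Fintype ι] (w : ι → ℕ) (hw : ∀ i, 0 < w i) :
    hs ℓ w (⊤ : Ideal (MvPolynomial ι κ)) - hs ℓ w (M κ (Finset.univ : Finset ι)) = 1 := by
  classical
  ext m
  rw [map_sub, hs, hs, PowerSeries.coeff_mk, PowerSeries.coeff_mk, PowerSeries.coeff_one]
  by_cases hm : m = 0
  · subst hm
    rw [if_pos rfl, pc_top_zero w hw, finrank_span_singleton one_ne_zero]
    have h : pc w (M κ (Finset.univ : Finset ι)) 0 = ⊥ := by
      rw [eq_bot_iff]
      intro f hf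
      have h1 := hf.1
      have h2 := hf.2
      rw [SetLike.mem_coe, Submodule.restrictScalars_mem, M, mem_ideal_span_X_image] at h1
      rw [SetLike.mem_coe, mem_weightedHomogeneousSubmodule] at h2
      rw [Submodule.mem_bot]
      by_contra hne
      obtain ⟨d, hd⟩ := (MvPolynomial.support_nonempty).2 hne
      obtain ⟨i, _, hi⟩ := h1 d hd
      have h3 := h2 (mem_support_iff.1 hd)
      have h4 : w i ≤ Finsupp.weight w d := Finsupp.le_weight_of_ne_zero' w hi
      have := hw i
      omega
    rw [h, finrank_bot]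
    simp
  · rw [if_neg hm]
    have h : pc w (M κ (Finset.univ : Finset ι)) m = pc w (⊤ : Ideal (MvPolynomial ι κ)) m := by
      apply le_antisymm
      · intro f hf
        exact ⟨by simp, hf.2⟩
      · intro f hf
        refine ⟨?_, hf.2⟩
        have h2 := hf.2
        rw [SetLike.mem_coe, mem_weightedHomogeneousSubmodule] at h2
        rw [SetLike.mem_coe, Submodule.restrictScalars_mem, M, mem_ideal_span_X_image]
        intro d hd
        by_contra hcon
        push Not at hcon
        have hd0 : d = 0 := by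
          ext i
          exact hcon i (by simp)
        have h3 := h2 (mem_support_iff.1 hd)
        rw [hd0, map_zero] at h3
        exact hm h3.symm
    rw [h, sub_self]

end

theorem top (h : S_HS) : S_TOP := by
  intro ℓ κ _ ι _ w hw
  classical
  have key : ∀ T : Finset ι, Gr w (M κ T) ∧
      hs ℓ w (⊤ : Ideal (MvPolynomial ι κ)) - hs ℓ w (M κ T) =
        hs ℓ w (⊤ : Ideal (MvPolynomial ι κ)) * ∏ i ∈ T, (1 - PowerSeries.X ^ w i) := by
    intro T
    induction T using Finset.induction_on with
    | empty =>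
      rw [M_empty]
      refine ⟨gr_bot w, ?_⟩
      rw [hs_bot]
      simp
    | insert i T hi ih =>
      obtain ⟨h1, _, h3⟩ := h ℓ κ ι w hw (M κ T) ⊤ ih.1 (gr_top w) le_top (X i) (w i)
        (isWeightedHomogeneous_X κ w i)
      rw [M_insert]
      refine ⟨h1, ?_⟩
      rw [qt_M T i hi] at h3
      rw [Finset.prod_insert hi]
      linear_combination (1 - PowerSeries.X ^ w i) * ih.2 - h3
  rw [← (key Finset.univ).2, hs_univ ℓ w hw]

end Pool.Agent.Q146.TL.Top
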