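import Pool.Agent.Q49.TL.Alg

set_option autoImplicit false

/-!
# Project TL: one more variable
-/

namespace Pool.Agent.Q146.TL.Tr

open MvPolynomial Pool.Agent.Q49.TL

/-- Polynomials of degree at most `D` with weighted homogeneous coefficients of weight `n`. -/
def Good {K : Type} [Field K] {Y : Type} (v : Y → ℕ) (n D : ℕ)
    (p : Polynomial (MvPolynomial Y K)) : Prop :=
  p.natDegree ≤ D ∧ ∀ m, IsWeightedHomogeneous v (p.coeff m) n

section

variable {K : Type} [Field K] {Y : Type} {v : Y → ℕ}

lemma Good.mul {n n' D D' : ℕ} {p q : Polynomial (MvPolynomial Y K)} (hp : Good v n D p)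
    (hq : Good v n' D' q) : Good v (n + n') (D + D') (p * q) := by
  refine ⟨Polynomial.natDegree_mul_le.trans (add_le_add hp.1 hq.1), fun m => ?_⟩
  rw [Polynomial.coeff_mul]
  exact IsWeightedHomogeneous.sum _ _ _ fun x _ => (hp.2 _).mul (hq.2 _)

lemma Good.one : Good v 0 0 (1 : Polynomial (MvPolynomial Y K)) := by
  refine ⟨by simp, fun m => ?_⟩
  rw [Polynomial.coeff_one]
  split_ifs
  · exact isWeightedHomogeneous_one K v
  · exact isWeightedHomogeneous_zero K v 0

lemma Good.pow {n D : ℕ} {p : Polynomial (MvPolynomial Y K)} (hp : Good v n D p) (k : ℕ) :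
    Good v (k * n) (k * D) (p ^ k) := by
  induction k with
  | zero => simpa using Good.one
  | succ k ih =>
    rw [pow_succ, Nat.succ_mul, Nat.succ_mul]
    exact ih.mul hp

lemma Good.prod {ι : Type} (s : Finset ι) (n D : ι → ℕ) (p : ι → Polynomial (MvPolynomial Y K))
    (hp : ∀ i ∈ s, Good v (n i) (D i) (p i)) :
    Good v (∑ i ∈ s, n i) (∑ i ∈ s, D i) (∏ i ∈ s, p i) := by
  classical
  induction s using Finset.induction_on with
  | empty => simpa using Good.one
  | insert i s hi ih =>
    rw [Finset.sum_insert hi, Finset.sum_insert hi, Finset.prod_insert hi]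
    exact (hp i (Finset.mem_insert_self i s)).mul (ih fun j hj => hp j (Finset.mem_insert_of_mem hj))

lemma Good.sum {α : Type} (s : Finset α) {n D : ℕ} (p : α → Polynomial (MvPolynomial Y K))
    (hp : ∀ i ∈ s, Good v n D (p i)) : Good v n D (∑ i ∈ s, p i) := by
  refine ⟨Polynomial.natDegree_sum_le_of_forall_le _ _ fun i hi => (hp i hi).1, fun m => ?_⟩
  rw [Polynomial.finsetSum_coeff]
  exact IsWeightedHomogeneous.sum _ _ _ fun i hi => (hp i hi).2 m

end

theorem tr : S_TR := by
  intro φ K _ hT ι κ _ _ w e f hw he hf hlt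
  classical
  -- clear denominators
  let g : (Σ j : κ, {d // d ∈ (f j).support}) → RatFunc K := fun x => coeff x.2.1 (f x.1)
  obtain ⟨b, hb⟩ := IsLocalization.exist_integer_multiples_of_finite
    (nonZeroDivisors (Polynomial K)) g
  have hA0 : ∀ j, ∀ d, ∃ a : Polynomial K, d ∈ (f j).support →
      algebraMap (Polynomial K) (RatFunc K) a =
        algebraMap (Polynomial K) (RatFunc K) (b : Polynomial K) * coeff d (f j) := by
    intro j d
    by_cases hd : d ∈ (f j).support
    · obtain ⟨a, ha⟩ := hb ⟨j, ⟨d, hd⟩⟩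
      refine ⟨a, fun _ => ?_⟩
      rw [ha, ← Algebra.smul_def]
    · exact ⟨0, fun h => absurd h hd⟩
  choose A hA using hA0
  set c := ∑ j, ∑ d ∈ (f j).support, (A j d).natDegree with hc
  have hcA : ∀ j, ∀ d ∈ (f j).support, (A j d).natDegree ≤ c := by
    intro j d hd
    exact (Finset.single_le_sum (f := fun d => (A j d).natDegree) (fun _ _ => Nat.zero_le _) hd).trans
      (Finset.single_le_sum (f := fun j => ∑ d ∈ (f j).support, (A j d).natDegree)
        (fun _ _ => Nat.zero_le _) (Finset.mem_univ j))
  set s := (c + 1) * ∑ j, φ (e j) + 1 with hs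
  let Y := Σ i : ι, Fin (w i * s + 1)
  let v : Y → ℕ := fun y => w y.1
  let xx : ι → Polynomial (MvPolynomial Y K) := fun i =>
    ∑ k : Fin (w i * s + 1), Polynomial.monomial (k : ℕ) (X (⟨i, k⟩ : Y))
  have hxx : ∀ i, Good v (w i) (w i * s) (xx i) := by
    intro i
    apply Good.sum
    intro k _
    refine ⟨(Polynomial.natDegree_monomial_le _).trans (Nat.lt_succ_iff.1 k.2), fun m => ?_⟩
    rw [Polynomial.coeff_monomial]
    split_ifs
    · exact isWeightedHomogeneous_X K v (⟨i, k⟩ : Y)
    · exact isWeightedHomogeneous_zero K v _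
  let G : κ → Polynomial (MvPolynomial Y K) := fun j =>
    ∑ d ∈ (f j).support, ((A j d).map (C : K →+* MvPolynomial Y K)) * ∏ i, xx i ^ d i
  have hG : ∀ j, Good v (e j) (e j * s + c) (G j) := by
    intro j
    apply Good.sum
    intro d hd
    have h1 : Good v 0 c ((A j d).map (C : K →+* MvPolynomial Y K)) := by
      refine ⟨(Polynomial.natDegree_map_le).trans (hcA j d hd), fun m => ?_⟩
      rw [Polynomial.coeff_map]
      exact isWeightedHomogeneous_C v _
    have h2 := Good.prod Finset.univ (fun i => d i * w i) (fun i => d i * (w i * s))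
      (fun i => xx i ^ d i) (fun i _ => (hxx i).pow (d i))
    have h3 : ∑ i, d i * w i = e j := by
      have h4 := hf j (mem_support_iff.1 hd)
      rw [Finsupp.weight_eq_sum] at h4
      simpa [smul_eq_mul] using h4
    have h5 : ∑ i, d i * (w i * s) = e j * s := by
      rw [← h3, Finset.sum_mul]
      exact Finset.sum_congr rfl fun i _ => (mul_assoc _ _ _).symm
    rw [h3, h5] at h2
    have h6 := h1.mul h2
    rwa [zero_add, add_comm] at h6
  -- apply the property of `K`
  obtain ⟨y, hy0, hy⟩ := hT Y (Σ j : κ, Fin (e j * s + c + 1)) v (fun x => e x.1)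
    (fun x => (G x.1).coeff x.2) (fun y => hw y.1) (fun x => he x.1) (fun x => (hG x.1).2 _) (by
      rw [Fintype.sum_sigma, Fintype.sum_sigma]
      simp only [Finset.sum_const, Finset.card_univ, Fintype.card_fin, smul_eq_mul, v]
      simp only at hlt
      have h1 : ∑ j, (e j * s + c + 1) * φ (e j) = s * ∑ j, e j * φ (e j) +
          (c + 1) * ∑ j, φ (e j) := by
        rw [Finset.mul_sum, Finset.mul_sum, ← Finset.sum_add_distrib]
        exact Finset.sum_congr rfl fun j _ => by ring
      have h2 : ∑ i, (w i * s + 1) * φ (w i) = s * ∑ i, w i * φ (w i) + ∑ i, φ (w i) := by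
        rw [Finset.mul_sum, ← Finset.sum_add_distrib]
        exact Finset.sum_congr rfl fun j _ => by ring
      rw [h1, h2]
      have h3 : s * (∑ j, e j * φ (e j) + 1) ≤ s * ∑ i, w i * φ (w i) :=
        Nat.mul_le_mul_left s hlt
      rw [mul_add, mul_one] at h3
      have h4 : (c + 1) * ∑ j, φ (e j) < s := Nat.lt_succ_self _
      omega)
  let xt : ι → Polynomial K := fun i =>
    ∑ k : Fin (w i * s + 1), Polynomial.monomial (k : ℕ) (y (⟨i, k⟩ : Y))
  have hxt : ∀ i, (xx i).map (eval y) = xt i := by
    intro i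
    simp only [xx, xt]
    rw [Polynomial.map_sum]
    apply Finset.sum_congr rfl
    intro k _
    rw [Polynomial.map_monomial, eval_X]
  have hGy : ∀ j, ∑ d ∈ (f j).support, A j d * ∏ i, xt i ^ d i = 0 := by
    intro j
    have h1 : (G j).map (eval y) = ∑ d ∈ (f j).support, A j d * ∏ i, xt i ^ d i := by
      simp only [G]
      rw [Polynomial.map_sum]
      apply Finset.sum_congr rfl
      intro d _
      rw [Polynomial.map_mul, Polynomial.map_map, Polynomial.map_prod]
      congr 1
      · have h2 : (eval y).comp (C : K →+* MvPolynomial Y K) = RingHom.id K := by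
          ext a
          simp
        rw [h2, Polynomial.map_id]
      · apply Finset.prod_congr rfl
        intro i _
        rw [Polynomial.map_pow, hxt]
    rw [← h1]
    ext m
    rw [Polynomial.coeff_map, Polynomial.coeff_zero]
    by_cases hm : m < e j * s + c + 1
    · exact hy ⟨j, ⟨m, hm⟩⟩
    · rw [Polynomial.coeff_eq_zero_of_natDegree_lt, map_zero]
      have := (hG j).1
      omega
  refine ⟨fun i => algebraMap (Polynomial K) (RatFunc K) (xt i), ?_, fun j => ?_⟩
  · intro h0
    apply hy0
    ext ⟨i, k⟩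
    have h1 := congrFun h0 i
    simp only [Pi.zero_apply] at h1
    rw [map_eq_zero_iff _ (IsFractionRing.injective (Polynomial K) (RatFunc K))] at h1
    have h2 : (xt i).coeff k = y ⟨i, k⟩ := by
      simp only [xt]
      rw [Polynomial.finsetSum_coeff, Finset.sum_eq_single k]
      · rw [Polynomial.coeff_monomial, if_pos rfl]
      · intro k' _ hk'
        rw [Polynomial.coeff_monomial, if_neg (fun h => hk' (Fin.ext h))]
      · intro h
        exact absurd (Finset.mem_univ k) h
    rw [← h2, h1]
    simp
  · have hb0 : algebraMap (Polynomial K) (RatFunc K) (b : Polynomial K) ≠ 0 := by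
      rw [Ne, map_eq_zero_iff _ (IsFractionRing.injective (Polynomial K) (RatFunc K))]
      exact nonZeroDivisors.ne_zero b.2
    have h1 := congrArg (algebraMap (Polynomial K) (RatFunc K)) (hGy j)
    rw [map_zero, map_sum] at h1
    have h2 : algebraMap (Polynomial K) (RatFunc K) (b : Polynomial K) *
        eval (fun i => algebraMap (Polynomial K) (RatFunc K) (xt i)) (f j) = 0 := by
      rw [← h1, eval_eq', Finset.mul_sum]
      apply Finset.sum_congr rfl
      intro d hd
      rw [map_mul, hA j d hd, map_prod, mul_assoc]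
      simp only [map_pow]
    exact (mul_eq_zero.1 h2).resolve_left hb0

end Pool.Agent.Q146.TL.Tr
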